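import Mathlib

/-!
Games on Cantor space, Turing reducibility (through Mathlib's `TuringReducible`), the reals
produced by the two players, and sets of plays that depend only on the unordered pair of the
degrees of these two reals.
-/

set_option autoImplicit false

namespace Pool.Agent.Helper56BP

/-- the list of the first `n` bits of `x` -/
def pre (x : ℕ → Bool) (n : ℕ) : List Bool := (List.range n).map x

/-- Player I, who chooses the bits `x 0, x 2, x 4, ...`, has a winning strategy in the game
with payoff set `A`. -/
def WinsI (A : Set (ℕ → Bool)) : Prop :=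
  ∃ σ : List Bool → Bool, ∀ x : ℕ → Bool, (∀ n, x (2 * n) = σ (pre x (2 * n))) → x ∈ A

/-- Player II, who chooses the bits `x 1, x 3, x 5, ...`, has a winning strategy in the game
with payoff set `A` (that is, he can avoid `A`). -/
def WinsII (A : Set (ℕ → Bool)) : Prop :=
  ∃ τ : List Bool → Bool, ∀ x : ℕ → Bool,
    (∀ n, x (2 * n + 1) = τ (pre x (2 * n + 1))) → x ∉ A

/-- the real produced by player I in the play `x` -/
def movesI (x : ℕ → Bool) : ℕ → Bool := fun k => x (2 * k)

/-- the real produced by player II in the play `x` -/
def movesII (x : ℕ → Bool) : ℕ → Bool := fun k => x (2 * k + 1)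

/-- The characteristic function of `x : ℕ → Bool` as a (total) number function. -/
def chi (x : ℕ → Bool) : ℕ →. ℕ := fun n => Part.some (x n).toNat

/-- `a` is Turing reducible to `b`, or is the image of `b` under one of the maps `F i`. -/
def Red (F : ℕ → (ℕ → Bool) → (ℕ → Bool)) (a b : ℕ → Bool) : Prop :=
  TuringReducible (chi a) (chi b) ∨ ∃ i, F i b = a

/-- `a` and `b` are reducible to each other. -/
def Eqv (F : ℕ → (ℕ → Bool) → (ℕ → Bool)) (a b : ℕ → Bool) : Prop :=
  Red F a b ∧ Red F b a

/-- Membership in the set `B` of plays depends only on the unordered pair of the degrees of the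
reals produced by the two players. -/
def PairInvariant (F : ℕ → (ℕ → Bool) → (ℕ → Bool)) (B : Set (ℕ → Bool)) : Prop :=
  ∀ x y : ℕ → Bool,
    (Eqv F (movesI x) (movesI y) ∧ Eqv F (movesII x) (movesII y)) ∨
      (Eqv F (movesI x) (movesII y) ∧ Eqv F (movesII x) (movesI y)) →
    x ∈ B → y ∈ B

end Pool.Agent.Helper56BP
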