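import Mathlib
import Pool.Agent.Helper56_BP.Defs

/-!
Positions of games and limits of positions.
-/

set_option autoImplicit false

namespace Pool.Agent.Helper56BP

@[simp] theorem pre_length (x : ℕ → Bool) (n : ℕ) : (pre x n).length = n := by simp [pre]

theorem pre_succ (x : ℕ → Bool) (n : ℕ) : pre x (n + 1) = pre x n ++ [x n] := by
  simp [pre, List.range_succ]

theorem pre_prefix (x : ℕ → Bool) {m n : ℕ} (h : m ≤ n) : pre x m <+: pre x n := by
  induction h with
  | refl => exact List.prefix_refl _
  | step _ ih => rw [Nat.succ_eq_add_one, pre_succ]; exact ih.trans (List.prefix_append _ _)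

theorem pre_eq_iff (x y : ℕ → Bool) (n : ℕ) : pre x n = pre y n ↔ ∀ i < n, x i = y i := by
  simp [pre]

theorem pre_getD (x : ℕ → Bool) {m i : ℕ} (h : i < m) : (pre x m).getD i false = x i := by
  rw [List.getD_eq_getElem _ _ (by simpa using h)]
  simp [pre]

/-- `x` extends the finite string `s` -/
def Ext (s : List Bool) (x : ℕ → Bool) : Prop := pre x s.length = s

theorem Ext.pre (x : ℕ → Bool) (n : ℕ) : Ext (pre x n) x := by simp [Ext]

theorem Ext.nil (x : ℕ → Bool) : Ext [] x := by simp [Ext, Helper56BP.pre]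

theorem Ext.mono {s s' : List Bool} {x : ℕ → Bool} (h : s <+: s') (hx : Ext s' x) : Ext s x := by
  unfold Ext at *
  have h1 : Helper56BP.pre x s.length <+: s' := by
    rw [← hx]; exact pre_prefix x h.length_le
  exact (List.prefix_of_prefix_length_le h1 h (by simp)).eq_of_length (by simp)

theorem ext_getD {p : List Bool} {x : ℕ → Bool} (h : Ext p x) {l : ℕ} (hl : l < p.length) :
    p.getD l false = x l := by
  unfold Ext at h
  conv_lhs => rw [← h]
  exact pre_getD x hl

theorem ext_take {p : List Bool} {x : ℕ → Bool} (h : Ext p x) {l : ℕ} (hl : l ≤ p.length) :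
    p.take l = pre x l := by
  unfold Ext at h
  rw [← h]
  have h1 : pre x l <+: pre x p.length := pre_prefix x hl
  have h2 : List.take l (pre x p.length) <+: pre x p.length := List.take_prefix _ _
  refine ((List.prefix_of_prefix_length_le h2 h1 (by simp [hl])).eq_of_length ?_)
  simp [hl]

theorem ext_of_getD {p : List Bool} {x : ℕ → Bool} (h : ∀ l < p.length, p.getD l false = x l) :
    Ext p x := by
  unfold Ext
  apply List.ext_getElem
  · simp
  · intro i h1 h2
    have := h i h2
    rw [List.getD_eq_getElem _ _ h2] at this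
    rw [this]
    simp [pre]

/-- generating plays -/
theorem exists_run (f : List Bool → Bool) (s : List Bool) :
    ∃ x, Ext s x ∧ ∀ m, s.length ≤ m → x m = f (pre x m) := by
  obtain ⟨R, hR0, hRs⟩ : ∃ R : ℕ → List Bool, R 0 = s ∧ ∀ n, R (n + 1) = R n ++ [f (R n)] :=
    ⟨fun n => Nat.rec s (fun _ l => l ++ [f l]) n, rfl, fun n => rfl⟩
  have hRl : ∀ n, (R n).length = s.length + n := by
    intro n
    induction n with
    | zero => rw [hR0]; rfl
    | succ n ih => rw [hRs]; simp [ih]; omega
  have hRm : ∀ {m n}, m ≤ n → R m <+: R n := by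
    intro m n h
    induction h with
    | refl => exact List.prefix_refl _
    | step _ ih => exact ih.trans (by rw [Nat.succ_eq_add_one, hRs]; exact List.prefix_append _ _)
  let x : ℕ → Bool := fun n => (R (n + 1)).getD n false
  have hx : ∀ n, Ext (R n) x := by
    intro n
    unfold Ext pre
    apply List.ext_getElem
    · simp
    · intro i h1 h2
      simp only [List.getElem_map, List.getElem_range]
      have h3 : i < (R (i + 1)).length := by rw [hRl]; omega
      change (R (i + 1)).getD i false = _
      rw [List.getD_eq_getElem _ _ h3]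
      rcases le_total n (i + 1) with h | h
      · exact ((hRm h).getElem h2).symm
      · exact (hRm h).getElem h3
  refine ⟨x, hR0 ▸ hx 0, fun m hm => ?_⟩
  obtain ⟨k, rfl⟩ := Nat.exists_eq_add_of_le hm
  have h1 := hx (k + 1)
  have h2 := hx k
  unfold Ext at h1 h2
  rw [hRl] at h1 h2
  rw [← Nat.add_assoc, pre_succ, hRs, h2] at h1
  have := List.append_inj_right' h1 rfl
  rw [h2]
  simpa using this

/-- the limit of an increasing sequence of positions -/
theorem exists_limit (q : ℕ → List Bool) (h1 : ∀ i, q i <+: q (i + 1))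
    (h2 : ∀ N, ∃ i, N ≤ (q i).length) : ∃ x, ∀ i, Ext (q i) x := by
  have hm : ∀ {i j}, i ≤ j → q i <+: q j := by
    intro i j h
    induction h with
    | refl => exact List.prefix_refl _
    | step _ ih => exact ih.trans (h1 _)
  choose g hg using h2
  refine ⟨fun n => (q (g (n + 1))).getD n false, fun i => ?_⟩
  unfold Ext pre
  apply List.ext_getElem
  · simp
  · intro k h3 h4
    simp only [List.getElem_map, List.getElem_range]
    have h5 : k < (q (g (k + 1))).length := hg (k + 1)
    rw [List.getD_eq_getElem _ _ h5]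
    rcases le_total i (g (k + 1)) with h | h
    · exact ((hm h).getElem h4).symm
    · exact (hm h).getElem h5

theorem ext_prefix {p : List Bool} {x : ℕ → Bool} (h : Ext p x) {m : ℕ} (hm : p.length ≤ m) :
    p <+: pre x m := by
  have h1 := pre_prefix x hm
  unfold Ext at h
  rwa [h] at h1

theorem prefix_of_ext {p q : List Bool} {x : ℕ → Bool} (hp : Ext p x) (hq : Ext q x)
    (h : p.length ≤ q.length) : p <+: q := by
  unfold Ext at hp hq
  rw [← hp, ← hq]
  exact pre_prefix x h

theorem getD_of_prefix {p q : List Bool} (h : p <+: q) {l : ℕ} (hl : l < p.length) :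
    q.getD l false = p.getD l false := by
  rw [List.getD_eq_getElem _ _ hl, List.getD_eq_getElem _ _ (lt_of_lt_of_le hl h.length_le)]
  exact (h.getElem hl).symm

theorem exists_cylinder {U : Set (ℕ → Bool)} (hU : IsOpen U) {a : ℕ → Bool} (ha : a ∈ U) :
    ∃ N, ∀ a' : ℕ → Bool, (∀ j < N, a' j = a j) → a' ∈ U := by
  rw [isOpen_pi_iff] at hU
  obtain ⟨I, u, hu, hsub⟩ := hU a ha
  refine ⟨I.sup id + 1, fun a' h => hsub ?_⟩
  intro i hi
  have h1 : i < I.sup id + 1 := Nat.lt_succ_of_le (Finset.le_sup (f := id) hi)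
  rw [h i h1]
  exact (hu i hi).2

theorem isOpen_cylinder (N : ℕ) (a : ℕ → Bool) : IsOpen {a' : ℕ → Bool | ∀ j < N, a' j = a j} := by
  have : {a' : ℕ → Bool | ∀ j < N, a' j = a j} =
      ⋂ j ∈ Finset.range N, (fun a' : ℕ → Bool => a' j) ⁻¹' {a j} := by
    ext a'
    simp
  rw [this]
  exact isOpen_biInter_finset fun j _ => (isOpen_discrete _).preimage (continuous_apply j)

theorem isOpen_of_cylinder {U : Set (ℕ → Bool)}
    (h : ∀ a ∈ U, ∃ N, ∀ a' : ℕ → Bool, (∀ j < N, a' j = a j) → a' ∈ U) : IsOpen U := by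
  rw [isOpen_iff_mem_nhds]
  intro a ha
  obtain ⟨N, hN⟩ := h a ha
  exact Filter.mem_of_superset ((isOpen_cylinder N a).mem_nhds (by simp)) fun a' ha' => hN a' ha'

end Pool.Agent.Helper56BP
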