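import Mathlib
import Pool.Agent.Helper56_BP.Basic

/-!
Countable families of Borel maps of Cantor space.
-/

set_option autoImplicit false

namespace Pool.Agent.Helper56BP

open Topology

/-- a monotone string functional -/
def MonoFn (f : ℕ → List Bool → Option Bool) : Prop :=
  ∀ k s s' v, s <+: s' → f k s = some v → f k s' = some v

/-- the functional `f` maps `a` to `b` -/
def Val (f : ℕ → List Bool → Option Bool) (a b : ℕ → Bool) : Prop :=
  ∀ k, ∃ l, f k (pre a l) = some (b k)

theorem MonoFn.eq {f : ℕ → List Bool → Option Bool} (hf : MonoFn f) {a : ℕ → Bool} {k l l' : ℕ}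
    {v v' : Bool} (h : f k (pre a l) = some v) (h' : f k (pre a l') = some v') : v = v' := by
  have h1 := hf k _ _ v (pre_prefix a (le_max_left l l')) h
  have h2 := hf k _ _ v' (pre_prefix a (le_max_right l l')) h'
  rw [h1] at h2
  exact Option.some.inj h2

theorem Val.unique {f : ℕ → List Bool → Option Bool} (hf : MonoFn f) {a b b' : ℕ → Bool}
    (h : Val f a b) (h' : Val f a b') : b = b' := by
  funext k
  obtain ⟨l, hl⟩ := h k
  obtain ⟨l', hl'⟩ := h' k
  exact hf.eq hl hl'

/-- extract a row of a real, after changing finitely many bits of the row -/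
def rowMod (n : ℕ) (s : List Bool) (a : ℕ → Bool) : ℕ → Bool :=
  fun k => if k < s.length then s.getD k false else a (Nat.pair n k)

/-! ### Functionals from partial continuous maps -/

/-- continuity of `F` on `X`, in terms of finite use -/
def Cts (X : Set (ℕ → Bool)) (F : (ℕ → Bool) → (ℕ → Bool)) : Prop :=
  ∀ a ∈ X, ∀ k, ∃ N, ∀ a' ∈ X, (∀ j < N, a' j = a j) → F a' k = F a k

theorem Cts.of_continuousOn {X : Set (ℕ → Bool)} {F : (ℕ → Bool) → (ℕ → Bool)}
    (h : ContinuousOn F X) : Cts X F := by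
  intro a ha k
  have h1 : ContinuousOn (fun x => F x k) X := (continuous_apply k).comp_continuousOn h
  have h2 := (h1 a ha) ((isOpen_discrete {F a k}).mem_nhds rfl)
  rw [Filter.mem_map, mem_nhdsWithin] at h2
  obtain ⟨U, hU, haU, hsub⟩ := h2
  obtain ⟨N, hN⟩ := exists_cylinder hU haU
  exact ⟨N, fun a' ha' h3 => hsub ⟨hN a' h3, ha'⟩⟩

/-- the value of `F` at `k` on `X` is decided by a prefix of `s` -/
def Dm (X : Set (ℕ → Bool)) (F : (ℕ → Bool) → (ℕ → Bool)) (k : ℕ) (v : Bool) (s : List Bool) :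
    Prop :=
  ∃ s', s' <+: s ∧ (∃ a ∈ X, Ext s' a) ∧ ∀ a ∈ X, Ext s' a → F a k = v

theorem Dm.mono {X : Set (ℕ → Bool)} {F : (ℕ → Bool) → (ℕ → Bool)} {k : ℕ} {v : Bool}
    {s s' : List Bool} (h : Dm X F k v s) (hs : s <+: s') : Dm X F k v s' := by
  obtain ⟨t, ht, h1, h2⟩ := h
  exact ⟨t, ht.trans hs, h1, h2⟩

theorem Dm.unique {X : Set (ℕ → Bool)} {F : (ℕ → Bool) → (ℕ → Bool)} {k : ℕ} {v v' : Bool}
    {s : List Bool} (h : Dm X F k v s) (h' : Dm X F k v' s) : v = v' := by
  obtain ⟨t, ht, ⟨a, ha, hat⟩, h2⟩ := h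
  obtain ⟨t', ht', ⟨a', ha', hat'⟩, h2'⟩ := h'
  rcases List.prefix_or_prefix_of_prefix ht ht' with h3 | h3
  · rw [← h2 a' ha' (hat'.mono h3), h2' a' ha' hat']
  · rw [← h2 a ha hat, h2' a ha (hat.mono h3)]

open Classical in
/-- the string functional of a partial map -/
noncomputable def fnOf (X : Set (ℕ → Bool)) (F : (ℕ → Bool) → (ℕ → Bool)) :
    ℕ → List Bool → Option Bool :=
  fun k s => if h : ∃ v, Dm X F k v s then some h.choose else none

theorem fnOf_eq_some {X : Set (ℕ → Bool)} {F : (ℕ → Bool) → (ℕ → Bool)} {k : ℕ} {v : Bool}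
    {s : List Bool} : fnOf X F k s = some v ↔ Dm X F k v s := by
  unfold fnOf
  constructor
  · intro h
    split_ifs at h with h1
    have := h1.choose_spec
    rwa [Option.some.inj h] at this
  · intro h
    have h1 : ∃ v, Dm X F k v s := ⟨v, h⟩
    rw [dif_pos h1]
    exact congrArg some (Dm.unique h1.choose_spec h)

theorem fnOf_mono (X : Set (ℕ → Bool)) (F : (ℕ → Bool) → (ℕ → Bool)) : MonoFn (fnOf X F) := by
  intro k s s' v h hv
  rw [fnOf_eq_some] at hv ⊢
  exact hv.mono h

theorem val_fnOf {X : Set (ℕ → Bool)} {F : (ℕ → Bool) → (ℕ → Bool)} (h : Cts X F)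
    {a : ℕ → Bool} (ha : a ∈ X) : Val (fnOf X F) a (F a) := by
  intro k
  obtain ⟨N, hN⟩ := h a ha k
  refine ⟨N, ?_⟩
  rw [fnOf_eq_some]
  refine ⟨pre a N, List.prefix_refl _, ⟨a, ha, Ext.pre a N⟩, fun a' ha' hext => ?_⟩
  unfold Ext at hext
  rw [pre_length, pre_eq_iff] at hext
  exact hN a' ha' hext

/-! ### Borel maps are continuous on a dense set -/

theorem exists_dense_open (F : ℕ → (ℕ → Bool) → (ℕ → Bool)) (hF : ∀ i, Measurable (F i)) :
    ∃ D : ℕ → Set (ℕ → Bool), (∀ n, IsOpen (D n)) ∧ (∀ n, Dense (D n)) ∧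
      ∀ i, Cts (⋂ n, D n) (F i) := by
  have h1 : ∀ i k, ∃ u : Set (ℕ → Bool), IsOpen u ∧ {a | F i a k = true} =ᵇ u := by
    intro i k
    have h2 : MeasurableSet {a | F i a k = true} :=
      ((measurable_pi_apply k).comp (hF i)) (measurableSet_singleton true)
    exact h2.residualEq_isOpen
  choose u hu1 hu2 using h1
  -- a set where all the equalities hold
  let E : Set (ℕ → Bool) := ⋂ i, ⋂ k, {a | (F i a k = true ↔ a ∈ u i k)}
  have hE : E ∈ residual (ℕ → Bool) := by
    refine countable_iInter_mem.2 fun i => countable_iInter_mem.2 fun k => ?_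
    filter_upwards [hu2 i k] with a ha
    exact iff_of_eq ha
  let E' : Set (ℕ → Bool) := ⋂ i, ⋂ k, (u i k ∪ (closure (u i k))ᶜ)
  have hE' : E' ∈ residual (ℕ → Bool) := by
    refine countable_iInter_mem.2 fun i => countable_iInter_mem.2 fun k => ?_
    refine residual_of_dense_open ((hu1 i k).union isClosed_closure.isOpen_compl) ?_
    intro x
    by_cases hx : x ∈ closure (u i k)
    · exact closure_mono Set.subset_union_left hx
    · exact subset_closure (Or.inr hx)
  have hEE : E ∩ E' ∈ residual (ℕ → Bool) := Filter.inter_mem hE hE'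
  rw [mem_residual_iff] at hEE
  obtain ⟨T, hT1, hT2, hT3, hT4⟩ := hEE
  obtain ⟨f, hf⟩ := (hT3.insert Set.univ).exists_eq_range (Set.insert_nonempty _ _)
  have hfT : ∀ n, f n = Set.univ ∨ f n ∈ T := by
    intro n
    have : f n ∈ insert Set.univ T := by rw [hf]; exact Set.mem_range_self n
    exact this
  refine ⟨f, fun n => ?_, fun n => ?_, fun i => ?_⟩
  · rcases hfT n with h | h
    · rw [h]; exact isOpen_univ
    · exact hT1 _ h
  · rcases hfT n with h | h
    · rw [h]; exact dense_univ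
    · exact hT2 _ h
  · have hsub : (⋂ n, f n) ⊆ E ∩ E' := by
      refine subset_trans ?_ hT4
      intro a ha t ht
      obtain ⟨n, hn⟩ : t ∈ Set.range f := by rw [← hf]; exact Set.mem_insert_of_mem _ ht
      rw [← hn]
      exact Set.mem_iInter.1 ha n
    intro a ha k
    have ha1 : F i a k = true ↔ a ∈ u i k :=
      Set.mem_iInter.1 (Set.mem_iInter.1 (hsub ha).1 i) k
    have ha2 : a ∈ u i k ∪ (closure (u i k))ᶜ :=
      Set.mem_iInter.1 (Set.mem_iInter.1 (hsub ha).2 i) k
    have key : ∀ a' ∈ ⋂ n, f n, (F i a' k = true ↔ a' ∈ u i k) := fun a' ha' =>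
      Set.mem_iInter.1 (Set.mem_iInter.1 (hsub ha').1 i) k
    rcases ha2 with h | h
    · obtain ⟨N, hN⟩ := exists_cylinder (hu1 i k) h
      exact ⟨N, fun a' ha' h' => by rw [(key a' ha').2 (hN a' h'), ha1.2 h]⟩
    · obtain ⟨N, hN⟩ := exists_cylinder isClosed_closure.isOpen_compl h
      refine ⟨N, fun a' ha' h' => ?_⟩
      have h2 : a ∉ u i k := fun h3 => h (subset_closure h3)
      have h3 : a' ∉ u i k := fun h4 => hN a' h' (subset_closure h4)
      have h4 : F i a k = false := by
        rw [← Bool.not_eq_true, ha1]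
        exact h2
      have h5 : F i a' k = false := by
        rw [← Bool.not_eq_true, key a' ha']
        exact h3
      rw [h4, h5]

/-! ### Closure under composition -/

theorem continuous_rowMod (n : ℕ) (s : List Bool) : Continuous (rowMod n s) := by
  refine continuous_pi fun k => ?_
  unfold rowMod
  split_ifs
  · exact continuous_const
  · exact continuous_apply _

/-- A countable family of Borel maps closed under composition, with the identity and all row
extractions. -/
structure Fam where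
  F : ℕ → (ℕ → Bool) → (ℕ → Bool)
  meas : ∀ i, Measurable (F i)
  comp : ∀ i j, ∃ l, ∀ a, F l a = F i (F j a)
  ident : ∃ l, ∀ a, F l a = a
  row : ∀ n s, ∃ l, F l = rowMod n s

theorem exists_fam {ι : Type} [Countable ι] (K : ι → (ℕ → Bool) → (ℕ → Bool))
    (hK : ∀ i, Measurable (K i)) : ∃ S : Fam, ∀ i, ∃ l, S.F l = K i := by
  let κ := (ℕ × List Bool) ⊕ ι
  let K' : κ → (ℕ → Bool) → (ℕ → Bool) := Sum.elim (fun q => rowMod q.1 q.2) K
  have hK' : ∀ i, Measurable (K' i) := by
    rintro (q | i)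
    · exact (continuous_rowMod _ _).measurable
    · exact hK i
  have : Nonempty κ := ⟨Sum.inl (0, [])⟩
  obtain ⟨f, hf⟩ := exists_surjective_nat κ
  let G : List ℕ → (ℕ → Bool) → (ℕ → Bool) := fun l => l.foldr (fun i g => K' (f i) ∘ g) id
  have hGm : ∀ l, Measurable (G l) := by
    intro l
    induction l with
    | nil => exact measurable_id
    | cons i l ih => exact (hK' (f i)).comp ih
  have hGa : ∀ l l' a, G (l ++ l') a = G l (G l' a) := by
    intro l l' a
    induction l with
    | nil => rfl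
    | cons i l ih =>
      change K' (f i) (G (l ++ l') a) = K' (f i) (G l (G l' a))
      rw [ih]
  have hG1 : ∀ n, G [n] = K' (f n) := fun n => rfl
  refine ⟨⟨fun n => G (Denumerable.ofNat (List ℕ) n), fun n => hGm _, fun i j => ?_, ?_,
    fun n s => ?_⟩, fun i => ?_⟩
  · refine ⟨Encodable.encode (Denumerable.ofNat (List ℕ) i ++ Denumerable.ofNat (List ℕ) j),
      fun a => ?_⟩
    simp only [Denumerable.ofNat_encode]
    exact hGa _ _ _
  · refine ⟨Encodable.encode ([] : List ℕ), fun a => ?_⟩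
    simp only [Denumerable.ofNat_encode]
    rfl
  · obtain ⟨m, hm⟩ := hf (Sum.inl (n, s))
    refine ⟨Encodable.encode [m], ?_⟩
    simp only [Denumerable.ofNat_encode]
    rw [hG1, hm]
    rfl
  · obtain ⟨m, hm⟩ := hf (Sum.inr i)
    refine ⟨Encodable.encode [m], ?_⟩
    simp only [Denumerable.ofNat_encode]
    rw [hG1, hm]
    rfl

end Pool.Agent.Helper56BP
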