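import Mathlib
import Pool.Agent.Helper56_BP.Fam

/-!
Reals that are generic for a countable family of Borel maps.
-/

set_option autoImplicit false

namespace Pool.Agent.Helper56BP

/-- the real number `(n, v)` coded in `C` -/
def rd (C : ℕ → Bool) (n : ℕ) (v : Bool) (k : ℕ) : Bool := C (Nat.pair (2 * n + v.toNat) k)

/-- `τ` extends `p`, and its rows `m < W.length` follow `c m (W m)` from `p.length` on -/
def Cmp (c : ℕ → Bool → ℕ → Bool) (W p τ : List Bool) : Prop :=
  p <+: τ ∧ ∀ κ, p.length ≤ κ → κ < τ.length → (Nat.unpair κ).1 < W.length →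
    τ.getD κ false = c (Nat.unpair κ).1 (W.getD (Nat.unpair κ).1 false) (Nat.unpair κ).2

theorem Cmp.refl (c : ℕ → Bool → ℕ → Bool) (W p : List Bool) : Cmp c W p p :=
  ⟨List.prefix_refl _, fun κ h1 h2 => by omega⟩

theorem Cmp.trans {c : ℕ → Bool → ℕ → Bool} {W p q s : List Bool} (h : Cmp c W p q)
    (h' : Cmp c W q s) : Cmp c W p s := by
  refine ⟨h.1.trans h'.1, fun κ h1 h2 h3 => ?_⟩
  by_cases h4 : κ < q.length
  · rw [getD_of_prefix h'.1 h4]
    exact h.2 κ h1 h4 h3
  · exact h'.2 κ (by omega) h2 h3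

/-- the extension of the finite string `p` in which the rows `m < W.length` follow `c m (W m)`
from `p.length` on -/
def astar (c : ℕ → Bool → ℕ → Bool) (W p : List Bool) : ℕ → Bool := fun κ =>
  if κ < p.length then p.getD κ false
  else if (Nat.unpair κ).1 < W.length then
    c (Nat.unpair κ).1 (W.getD (Nat.unpair κ).1 false) (Nat.unpair κ).2
  else false

theorem ext_astar (c : ℕ → Bool → ℕ → Bool) (W p : List Bool) : Ext p (astar c W p) := by
  refine ext_of_getD fun l hl => ?_
  unfold astar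
  rw [if_pos hl]

theorem cmp_astar (c : ℕ → Bool → ℕ → Bool) (W p : List Bool) {L : ℕ} (hL : p.length ≤ L) :
    Cmp c W p (pre (astar c W p) L) := by
  refine ⟨ext_prefix (ext_astar c W p) hL, fun κ h1 h2 h3 => ?_⟩
  rw [pre_length] at h2
  rw [pre_getD _ h2]
  unfold astar
  rw [if_neg (by omega), if_pos h3]

/-- Baire category -/
theorem exists_point {ι : Type} [Countable ι] (U : ι → Set (ℕ → Bool)) (hU : ∀ e, IsOpen (U e)) :
    ∃ C : ℕ → Bool, ∀ e, C ∈ U e ∨ ∃ N, ∀ C' : ℕ → Bool, (∀ j < N, C' j = C j) → C' ∉ U e := by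
  have hopen : ∀ e, IsOpen (U e ∪ interior (U e)ᶜ) := fun e => (hU e).union isOpen_interior
  have hdense : ∀ e, Dense (U e ∪ interior (U e)ᶜ) := by
    intro e x
    by_cases hx : x ∈ closure (U e)
    · exact closure_mono Set.subset_union_left hx
    · refine subset_closure (Or.inr ?_)
      rw [interior_compl]
      exact hx
  obtain ⟨C, hC⟩ := (dense_iInter_of_isOpen hopen hdense).nonempty
  refine ⟨C, fun e => ?_⟩
  rcases Set.mem_iInter.1 hC e with h | h
  · exact Or.inl h
  · obtain ⟨N, hN⟩ := exists_cylinder isOpen_interior h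
    exact Or.inr ⟨N, fun C' hC' => interior_subset (hN C' hC')⟩

theorem cmp_open {C : ℕ → Bool} {W p τ : List Bool} (h : Cmp (rd C) W p τ) :
    ∃ N, ∀ C' : ℕ → Bool, (∀ j < N, C' j = C j) → Cmp (rd C') W p τ := by
  have h1 : ∀ M, ∃ N, ∀ C' : ℕ → Bool, (∀ j < N, C' j = C j) → ∀ κ < M,
      rd C' (Nat.unpair κ).1 (W.getD (Nat.unpair κ).1 false) (Nat.unpair κ).2 =
        rd C (Nat.unpair κ).1 (W.getD (Nat.unpair κ).1 false) (Nat.unpair κ).2 := by
    intro M
    induction M with
    | zero => exact ⟨0, fun C' _ κ hκ => by omega⟩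
    | succ M ih =>
      obtain ⟨N, hN⟩ := ih
      refine ⟨max N (Nat.pair (2 * (Nat.unpair M).1 +
        (W.getD (Nat.unpair M).1 false).toNat) (Nat.unpair M).2 + 1), fun C' hC' κ hκ => ?_⟩
      rcases Nat.lt_succ_iff_lt_or_eq.1 hκ with h2 | h2
      · exact hN C' (fun j hj => hC' j (lt_of_lt_of_le hj (le_max_left _ _))) κ h2
      · subst h2
        exact hC' _ (lt_of_lt_of_le (Nat.lt_succ_self _) (le_max_right _ _))
  obtain ⟨N, hN⟩ := h1 τ.length
  refine ⟨N, fun C' hC' => ⟨h.1, fun κ h2 h3 h4 => ?_⟩⟩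
  rw [hN C' hC' κ h3]
  exact h.2 κ h2 h3 h4

theorem pair_le {m m' k : ℕ} (h : m ≤ m') : Nat.pair m k ≤ Nat.pair m' k := by
  rcases Nat.lt_or_eq_of_le h with h | h
  · exact (Nat.pair_lt_pair_left k h).le
  · rw [h]

/-- A generic real decides every property of strings, along every way to follow it. -/
theorem decide_of_interior {C : ℕ → Bool} {W p : List Bool} {Φ : List Bool → Prop}
    (h : (∃ τ, Cmp (rd C) W p τ ∧ Φ τ) ∨
      ∃ N, ∀ C' : ℕ → Bool, (∀ j < N, C' j = C j) → ¬ ∃ τ, Cmp (rd C') W p τ ∧ Φ τ) :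
    (∃ τ, Cmp (rd C) W p τ ∧ Φ τ) ∨ ∃ τ, Cmp (rd C) W p τ ∧ ∀ q, τ <+: q → ¬ Φ q := by
  rcases h with h | ⟨N, hN⟩
  · exact Or.inl h
  · refine Or.inr ⟨pre (astar (rd C) W p) (max N p.length), cmp_astar _ _ _ (le_max_right _ _),
      fun q hq hΦ => ?_⟩
    set L := max N p.length with hL
    let C' : ℕ → Bool := fun j =>
      if (Nat.unpair j).1 / 2 < W.length ∧
          decide ((Nat.unpair j).1 % 2 = 1) = W.getD ((Nat.unpair j).1 / 2) false ∧
          L ≤ Nat.pair ((Nat.unpair j).1 / 2) (Nat.unpair j).2 ∧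
          Nat.pair ((Nat.unpair j).1 / 2) (Nat.unpair j).2 < q.length
      then q.getD (Nat.pair ((Nat.unpair j).1 / 2) (Nat.unpair j).2) false else C j
    have hagree : ∀ j < N, C' j = C j := by
      intro j hj
      have : ¬ ((Nat.unpair j).1 / 2 < W.length ∧
          decide ((Nat.unpair j).1 % 2 = 1) = W.getD ((Nat.unpair j).1 / 2) false ∧
          L ≤ Nat.pair ((Nat.unpair j).1 / 2) (Nat.unpair j).2 ∧
          Nat.pair ((Nat.unpair j).1 / 2) (Nat.unpair j).2 < q.length) := by
        rintro ⟨-, -, h3, -⟩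
        have h4 := pair_le (k := (Nat.unpair j).2) (Nat.div_le_self (Nat.unpair j).1 2)
        rw [Nat.pair_unpair] at h4
        omega
      simp only [C', if_neg this]
    refine hN C' hagree ⟨q, ⟨(ext_prefix (ext_astar (rd C) W p) (le_max_right N _)).trans hq,
      fun κ h1 h2 h3 => ?_⟩, hΦ⟩
    set m := (Nat.unpair κ).1 with hm
    set k := (Nat.unpair κ).2 with hk
    set v := W.getD m false with hv
    have hκ : Nat.pair m k = κ := Nat.pair_unpair κ
    have h4 : (2 * m + v.toNat) / 2 = m := by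
      cases v <;> simp
      omega
    have h5 : decide ((2 * m + v.toNat) % 2 = 1) = v := by
      cases v <;> simp
    have h6 : rd C' m v k = if m < W.length ∧ v = W.getD m false ∧ L ≤ κ ∧ κ < q.length then
        q.getD κ false else rd C m v k := by
      simp only [rd, C', Nat.unpair_pair, h4, h5, hκ]
    rw [h6]
    by_cases h7 : L ≤ κ
    · rw [if_pos ⟨h3, rfl, h7, h2⟩]
    · rw [if_neg (by rintro ⟨-, -, h, -⟩; exact h7 h)]
      rw [getD_of_prefix hq (by rw [pre_length]; omega), pre_getD _ (by omega)]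
      unfold astar
      rw [if_neg (by omega), if_pos h3]

/-- The data used for the coding. -/
structure Sys extends Fam where
  D : ℕ → Set (ℕ → Bool)
  opn : ∀ n, IsOpen (D n)
  dns : ∀ n, Dense (D n)
  cts : ∀ i, Cts (⋂ n, D n) (F i)
  c : ℕ → Bool → ℕ → Bool
  gen1 : ∀ n p W, ∃ τ, Cmp c W p τ ∧ ∀ a, Ext τ a → a ∈ D n
  gen2 : ∀ i n v p (W : List Bool), ¬ (n < W.length ∧ W.getD n false = v) →
    ∃ τ, Cmp c W p τ ∧ ∀ a ∈ ⋂ n, D n, Ext τ a → F i a ≠ c n v

theorem exists_ext_mem {D : Set (ℕ → Bool)} (h1 : IsOpen D) (h2 : Dense D) (τ : List Bool) :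
    ∃ q, τ <+: q ∧ ∀ a, Ext q a → a ∈ D := by
  let a0 : ℕ → Bool := fun n => τ.getD n false
  have ha0 : Ext τ a0 := ext_of_getD fun l _ => rfl
  obtain ⟨a, ha, haD⟩ := h2.inter_open_nonempty _ (isOpen_cylinder τ.length a0)
    ⟨a0, fun j _ => rfl⟩
  have hτ : Ext τ a := by
    refine ext_of_getD fun l hl => ?_
    exact (ha l hl).symm
  obtain ⟨N, hN⟩ := exists_cylinder h1 haD
  refine ⟨pre a (max N τ.length), ext_prefix hτ (le_max_right _ _), fun b hb => hN b fun j hj => ?_⟩
  unfold Ext at hb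
  rw [pre_length, pre_eq_iff] at hb
  exact hb j (lt_of_lt_of_le hj (le_max_left _ _))

theorem exists_sys (S : Fam) : ∃ T : Sys, T.toFam = S := by
  obtain ⟨D, hD1, hD2, hD3⟩ := exists_dense_open S.F S.meas
  let θ : ℕ → ℕ → List Bool → Option Bool := fun i => fnOf (⋂ n, D n) (S.F i)
  have hθ : ∀ i, MonoFn (θ i) := fun i => fnOf_mono _ _
  let ι := (ℕ ⊕ (ℕ × ℕ)) × List Bool × List Bool
  let κ := ℕ × ℕ × Bool × List Bool × List Bool
  let Φ : (ℕ ⊕ (ℕ × ℕ)) → List Bool → Prop := Sum.elim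
    (fun n τ => ∀ a, Ext τ a → a ∈ D n)
    (fun q τ => (θ q.1 q.2 τ).isSome)
  let U : ι ⊕ κ → Set (ℕ → Bool) := Sum.elim
    (fun e => {C | ∃ τ, Cmp (rd C) e.2.2 e.2.1 τ ∧ Φ e.1 τ})
    (fun e => {C | ∃ k τ, Cmp (rd C) e.2.2.2.2 e.2.2.2.1 τ ∧
      θ e.1 k τ = some (!(rd C e.2.1 e.2.2.1 k))})
  have hU : ∀ e, IsOpen (U e) := by
    rintro (e | e)
    · refine isOpen_of_cylinder fun C hC => ?_
      obtain ⟨τ, h1, h2⟩ := hC
      obtain ⟨N, hN⟩ := cmp_open h1
      exact ⟨N, fun C' hC' => ⟨τ, hN C' hC', h2⟩⟩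
    · refine isOpen_of_cylinder fun C hC => ?_
      obtain ⟨k, τ, h1, h2⟩ := hC
      obtain ⟨N, hN⟩ := cmp_open h1
      refine ⟨max N (Nat.pair (2 * e.2.1 + e.2.2.1.toNat) k + 1), fun C' hC' =>
        ⟨k, τ, hN C' fun j hj => hC' j (lt_of_lt_of_le hj (le_max_left _ _)), ?_⟩⟩
      rw [h2]
      unfold rd
      rw [hC' _ (lt_of_lt_of_le (Nat.lt_succ_self _) (le_max_right _ _))]
  obtain ⟨C, hC⟩ := exists_point U hU
  have g1 : ∀ (e : ℕ ⊕ (ℕ × ℕ)) (p W : List Bool),
      (∃ τ, Cmp (rd C) W p τ ∧ Φ e τ) ∨ ∃ τ, Cmp (rd C) W p τ ∧ ∀ q, τ <+: q → ¬ Φ e q :=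
    fun e p W => decide_of_interior (hC (Sum.inl (e, p, W)))
  refine ⟨⟨S, D, hD1, hD2, hD3, rd C, fun n p W => ?_, fun i n v p W hnv => ?_⟩, rfl⟩
  · rcases g1 (Sum.inl n) p W with h | ⟨τ, -, h2⟩
    · exact h
    · obtain ⟨q, hq, hqD⟩ := exists_ext_mem (hD1 n) (hD2 n) τ
      exact absurd hqD (h2 q hq)
  · rcases hC (Sum.inr (i, n, v, p, W)) with h | ⟨N, hN⟩
    · obtain ⟨k, τ, h1, h2⟩ := h
      refine ⟨τ, h1, fun a haD ha hval => ?_⟩
      obtain ⟨l, hl⟩ := val_fnOf (hD3 i) haD k
      have h3 : θ i k (pre a τ.length) = some (!(rd C n v k)) := by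
        unfold Ext at ha
        rw [ha]
        exact h2
      have := (hθ i).eq hl h3
      rw [hval] at this
      revert this
      cases rd C n v k <;> simp
    · rcases g1 (Sum.inr (i, N)) p W with ⟨τ, h1, h2⟩ | ⟨τ, h1, h2⟩
      · exfalso
        obtain ⟨v', hv'⟩ := Option.isSome_iff_exists.1 h2
        by_cases h3 : v' = !(rd C n v N)
        · exact hN C (fun _ _ => rfl) ⟨N, τ, h1, by rw [← h3]; exact hv'⟩
        · have h4 : v' = rd C n v N := by
            revert h3
            cases v' <;> cases rd C n v N <;> simp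
          let C' : ℕ → Bool := fun j =>
            if j = Nat.pair (2 * n + v.toNat) N then !(C j) else C j
          have h5 : ∀ j < N, C' j = C j := by
            intro j hj
            have : j ≠ Nat.pair (2 * n + v.toNat) N := by
              have := Nat.right_le_pair (2 * n + v.toNat) N
              omega
            simp only [C', if_neg this]
          have h6 : rd C' n v N = !(rd C n v N) := by
            simp [rd, C']
          have h7 : ∀ m k, m < W.length →
              rd C' m (W.getD m false) k = rd C m (W.getD m false) k := by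
            intro m k hm
            have : Nat.pair (2 * m + (W.getD m false).toNat) k ≠
                Nat.pair (2 * n + v.toNat) N := by
              intro h8
              have h9 := (Nat.pair_eq_pair.1 h8).1
              apply hnv
              have h10 : m = n := by
                have a1 := Bool.toNat_lt (W.getD m false)
                have a2 := Bool.toNat_lt v
                omega
              subst h10
              refine ⟨hm, ?_⟩
              have h11 : (W.getD m false).toNat = v.toNat := by omega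
              revert h11
              cases W.getD m false <;> cases v <;> simp
            simp only [rd, C', if_neg this]
          refine hN C' h5 ⟨N, τ, ⟨h1.1, fun κ a1 a2 a3 => ?_⟩, ?_⟩
          · rw [h7 _ _ a3]
            exact h1.2 κ a1 a2 a3
          · change θ i N τ = some (!(rd C' n v N))
            rw [h6, Bool.not_not, ← h4]
            exact hv'
      · refine ⟨τ, h1, fun a haD ha hval => ?_⟩
        obtain ⟨l, hl⟩ := val_fnOf (hD3 i) haD N
        refine h2 (pre a (max l τ.length)) (ext_prefix ha (le_max_right _ _)) ?_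
        change (θ i N (pre a (max l τ.length))).isSome
        rw [hθ i N _ _ _ (pre_prefix a (le_max_left l τ.length)) hl]
        rfl

end Pool.Agent.Helper56BP
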