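import Mathlib
import Pool.Agent.Helper56_BP.Gen

/-!
The machine that produces reals with prescribed opinions, the property `H` and the opinions.
-/

set_option autoImplicit false

namespace Pool.Agent.Helper56BP

/-- the map in requirement number `s` -/
def ri (s : ℕ) : ℕ := (Nat.unpair s).1
/-- the bit of requirement number `s` -/
def rn (s : ℕ) : ℕ := (Nat.unpair s).2 / 2
/-- the forbidden opinion of requirement number `s` -/
def rv (s : ℕ) : Bool := decide ((Nat.unpair s).2 % 2 = 1)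

theorem rn_le (s : ℕ) : rn s ≤ s := by
  have := Nat.unpair_right_le s
  unfold rn
  omega

theorem exists_req (i n : ℕ) (v : Bool) : ∃ s, ri s = i ∧ rn s = n ∧ rv s = v := by
  refine ⟨Nat.pair i (2 * n + v.toNat), ?_, ?_, ?_⟩
  · simp [ri]
  · cases v
    · simp [rn]
    · simp [rn]; omega
  · cases v
    · simp [rv]
    · simp [rv]

theorem exists_next (S : Sys) (t : ℕ) (p W : List Bool) :
    ∃ p', Cmp S.c W p p' ∧ p.length < p'.length ∧
      (¬ (rn (Nat.unpair t).1 < W.length ∧ W.getD (rn (Nat.unpair t).1) false =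
          rv (Nat.unpair t).1) →
        ∀ a ∈ ⋂ n, S.D n, Ext p' a → S.F (ri (Nat.unpair t).1) a ≠
          S.c (rn (Nat.unpair t).1) (rv (Nat.unpair t).1)) ∧
      ∀ a, Ext p' a → a ∈ S.D (Nat.unpair t).1 := by
  set s := (Nat.unpair t).1
  have h0 : Cmp S.c W p (pre (astar S.c W p) (p.length + 1)) :=
    cmp_astar _ _ _ (Nat.le_succ _)
  set p0 := pre (astar S.c W p) (p.length + 1) with hp0
  have hl0 : p0.length = p.length + 1 := by simp [hp0]
  obtain ⟨p1, h1, h1'⟩ : ∃ p1, Cmp S.c W p0 p1 ∧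
      (¬ (rn s < W.length ∧ W.getD (rn s) false = rv s) →
        ∀ a ∈ ⋂ n, S.D n, Ext p1 a → S.F (ri s) a ≠ S.c (rn s) (rv s)) := by
    by_cases h : rn s < W.length ∧ W.getD (rn s) false = rv s
    · exact ⟨p0, Cmp.refl _ _ _, fun h' => absurd h h'⟩
    · obtain ⟨τ, h2, h3⟩ := S.gen2 (ri s) (rn s) (rv s) p0 W h
      exact ⟨τ, h2, fun _ => h3⟩
  obtain ⟨p2, h2, h2'⟩ := S.gen1 s p1 W
  refine ⟨p2, (h0.trans h1).trans h2, ?_, fun h a haD ha => h1' h a haD (ha.mono h2.1), h2'⟩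
  have := h1.1.length_le
  have := h2.1.length_le
  omega

/-- the next position of the machine -/
noncomputable def nx (S : Sys) (t : ℕ) (p W : List Bool) : List Bool :=
  (exists_next S t p W).choose

/-- the position of the machine after `t` stages, with targets `ω` -/
noncomputable def stg (S : Sys) (ω : ℕ → ℕ → Bool) : ℕ → List Bool
  | 0 => []
  | t + 1 => nx S t (stg S ω t) (pre (ω t) (t + 1))

theorem stg_cmp (S : Sys) (ω : ℕ → ℕ → Bool) (t : ℕ) :
    Cmp S.c (pre (ω t) (t + 1)) (stg S ω t) (stg S ω (t + 1)) :=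
  (exists_next S t (stg S ω t) (pre (ω t) (t + 1))).choose_spec.1

theorem stg_lt (S : Sys) (ω : ℕ → ℕ → Bool) (t : ℕ) :
    (stg S ω t).length < (stg S ω (t + 1)).length :=
  (exists_next S t (stg S ω t) (pre (ω t) (t + 1))).choose_spec.2.1

theorem stg_neg (S : Sys) (ω : ℕ → ℕ → Bool) (t : ℕ)
    (h : ω t (rn (Nat.unpair t).1) ≠ rv (Nat.unpair t).1) (a : ℕ → Bool)
    (haD : a ∈ ⋂ n, S.D n) (ha : Ext (stg S ω (t + 1)) a) :
    S.F (ri (Nat.unpair t).1) a ≠ S.c (rn (Nat.unpair t).1) (rv (Nat.unpair t).1) := by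
  refine (exists_next S t (stg S ω t) (pre (ω t) (t + 1))).choose_spec.2.2.1 ?_ a haD ha
  rintro ⟨h1, h2⟩
  rw [pre_length] at h1
  rw [pre_getD _ h1] at h2
  exact h h2

theorem stg_pos (S : Sys) (ω : ℕ → ℕ → Bool) (t : ℕ) (a : ℕ → Bool)
    (ha : Ext (stg S ω (t + 1)) a) : a ∈ S.D (Nat.unpair t).1 :=
  (exists_next S t (stg S ω t) (pre (ω t) (t + 1))).choose_spec.2.2.2 a ha

theorem stg_le (S : Sys) (ω : ℕ → ℕ → Bool) (t : ℕ) : t ≤ (stg S ω t).length := by
  induction t with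
  | zero => omega
  | succ t ih => have := stg_lt S ω t; omega

theorem stg_mono (S : Sys) (ω : ℕ → ℕ → Bool) {t t' : ℕ} (h : t ≤ t') :
    stg S ω t <+: stg S ω t' := by
  induction h with
  | refl => exact List.prefix_refl _
  | step _ ih => exact ih.trans (stg_cmp S ω _).1

/-- the real produced by the machine -/
noncomputable def mk (S : Sys) (ω : ℕ → ℕ → Bool) : ℕ → Bool :=
  (exists_limit (stg S ω) (fun t => (stg_cmp S ω t).1) fun N => ⟨N, stg_le S ω N⟩).choose

theorem ext_mk (S : Sys) (ω : ℕ → ℕ → Bool) (t : ℕ) : Ext (stg S ω t) (mk S ω) :=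
  (exists_limit (stg S ω) (fun t => (stg_cmp S ω t).1) fun N => ⟨N, stg_le S ω N⟩).choose_spec t

theorem mk_mem (S : Sys) (ω : ℕ → ℕ → Bool) : mk S ω ∈ ⋂ n, S.D n := by
  refine Set.mem_iInter.2 fun n => ?_
  have := stg_pos S ω (Nat.pair n 0) (mk S ω) (ext_mk S ω _)
  rwa [Nat.unpair_pair] at this

theorem stg_congr {S : Sys} {ω ω' : ℕ → ℕ → Bool} {T : ℕ}
    (h : ∀ t < T, ∀ m < t + 1, ω t m = ω' t m) : ∀ t ≤ T, stg S ω t = stg S ω' t := by
  intro t
  induction t with
  | zero => intro _; rfl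
  | succ t ih =>
    intro ht
    change nx S t (stg S ω t) (pre (ω t) (t + 1)) = nx S t (stg S ω' t) (pre (ω' t) (t + 1))
    rw [ih (by omega), (pre_eq_iff (ω t) (ω' t) (t + 1)).2 fun i hi => h t (by omega) i hi]

theorem exists_stage (S : Sys) (ω : ℕ → ℕ → Bool) (l : ℕ) :
    ∃ t, (stg S ω t).length ≤ l ∧ l < (stg S ω (t + 1)).length := by
  classical
  have h1 : ∃ t, l < (stg S ω (t + 1)).length := ⟨l, by have := stg_le S ω (l + 1); omega⟩
  refine ⟨Nat.find h1, ?_, Nat.find_spec h1⟩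
  rcases Nat.eq_zero_or_pos (Nat.find h1) with h2 | h2
  · rw [h2]; simp [stg]
  · have h3 := Nat.find_min h1 (m := Nat.find h1 - 1) (by omega)
    have h4 : Nat.find h1 - 1 + 1 = Nat.find h1 := by omega
    rw [h4] at h3
    omega

/-- The real depends on the targets in a Lipschitz way. -/
theorem mk_congr {S : Sys} {ω ω' : ℕ → ℕ → Bool} {T : ℕ}
    (h : ∀ t < T, ∀ m < t + 1, ω t m = ω' t m) {l : ℕ} (hl : l < (stg S ω T).length) :
    mk S ω l = mk S ω' l := by
  rw [← ext_getD (ext_mk S ω T) hl, ← ext_getD (ext_mk S ω' T) (by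
    rw [← stg_congr h T le_rfl]; exact hl), stg_congr h T le_rfl]

/-! ### Compactness -/

theorem continuous_iff_eventually {Z : Type} [TopologicalSpace Z] (f : Z → ℕ → Bool) :
    Continuous f ↔ ∀ z k, ∀ᶠ z' in nhds z, f z' k = f z k := by
  rw [continuous_pi_iff]
  simp only [continuous_iff_continuousAt, ContinuousAt, nhds_discrete, Filter.tendsto_pure]
  exact ⟨fun h z k => h k z, fun h k z => h z k⟩

theorem continuous_mk (S : Sys) : Continuous (mk S) := by
  rw [continuous_iff_eventually]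
  intro ω l
  have h1 : ∀ᶠ ω' in nhds ω, ∀ t ∈ Finset.range (l + 1), ∀ m ∈ Finset.range (t + 1),
      ω' t m = ω t m := by
    rw [Filter.eventually_all_finset]
    intro t _
    rw [Filter.eventually_all_finset]
    intro m _
    have h2 : Continuous fun ω' : ℕ → ℕ → Bool => ω' t m := by fun_prop
    exact (isOpen_discrete {ω t m}).preimage h2 |>.mem_nhds rfl
  filter_upwards [h1] with ω' hω'
  refine (mk_congr (T := l + 1) (fun t ht m hm => ?_) ?_).symm
  · exact (hω' t (Finset.mem_range.2 ht) m (Finset.mem_range.2 hm)).symm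
  · exact stg_le S ω (l + 1)

theorem continuous_F_mk (S : Sys) (j : ℕ) : Continuous fun ω => S.F j (mk S ω) := by
  rw [continuous_iff_eventually]
  intro ω k
  obtain ⟨N, hN⟩ := S.cts j (mk S ω) (mk_mem S ω) k
  have h1 : ∀ᶠ ω' in nhds ω, ∀ l ∈ Finset.range N, mk S ω' l = mk S ω l := by
    rw [Filter.eventually_all_finset]
    intro l _
    exact (continuous_iff_eventually _).1 (continuous_mk S) ω l
  filter_upwards [h1] with ω' hω'
  exact hN _ (mk_mem S ω') fun l hl => hω' l (Finset.mem_range.2 hl)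

/-- reducibility inside the family -/
def Le (S : Sys) (b a : ℕ → Bool) : Prop := ∃ i, S.F i a = b

theorem Le.trans {S : Sys} {a b c : ℕ → Bool} (h : Le S c b) (h' : Le S b a) : Le S c a := by
  obtain ⟨i, hi⟩ := h
  obtain ⟨j, hj⟩ := h'
  obtain ⟨l, hl⟩ := S.comp i j
  exact ⟨l, by rw [hl, hj, hi]⟩

/-- `a` is reducible to a real produced by the machine. -/
def H (S : Sys) (a : ℕ → Bool) : Prop := ∃ j ω, S.F j (mk S ω) = a

theorem H.mono {S : Sys} {a a' : ℕ → Bool} (h : H S a) (h' : Le S a' a) : H S a' := by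
  obtain ⟨j, ω, hj⟩ := h
  obtain ⟨l, hl⟩ := Le.trans h' ⟨j, hj⟩
  exact ⟨l, ω, hl⟩

theorem H_mk (S : Sys) (ω : ℕ → ℕ → Bool) : H S (mk S ω) := by
  obtain ⟨l, hl⟩ := S.ident
  exact ⟨l, ω, hl _⟩

/-- `b` is reducible to a real of the machine by `F j`, and `F i` maps `b` to `d`. -/
def Rel (S : Sys) (i j : ℕ) (b d : ℕ → Bool) : Prop := ∃ ω, S.F j (mk S ω) = b ∧ S.F i b = d

theorem Rel.le {S : Sys} {i j : ℕ} {b d : ℕ → Bool} (h : Rel S i j b d) : Le S d b :=
  ⟨i, h.choose_spec.2⟩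

theorem exists_rel {S : Sys} {b d : ℕ → Bool} (hb : H S b) (h : Le S d b) :
    ∃ i j, Rel S i j b d := by
  obtain ⟨i, hi⟩ := h
  obtain ⟨j, ω, hj⟩ := hb
  exact ⟨i, j, ω, hj, hi⟩

theorem isClosed_rel (S : Sys) (i j : ℕ) (d : ℕ → Bool) : IsClosed {b | Rel S i j b d} := by
  obtain ⟨l, hl⟩ := S.comp i j
  have h1 : IsClosed {ω | S.F l (mk S ω) = d} := isClosed_eq (continuous_F_mk S l) continuous_const
  have h2 : {b | Rel S i j b d} = (fun ω => S.F j (mk S ω)) '' {ω | S.F l (mk S ω) = d} := by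
    ext b
    constructor
    · rintro ⟨ω, rfl, h⟩
      refine ⟨ω, ?_, rfl⟩
      change S.F l (mk S ω) = d
      rw [hl, h]
    · rintro ⟨ω, h, rfl⟩
      have h3 : S.F l (mk S ω) = d := h
      exact ⟨ω, rfl, by rw [← hl, h3]⟩
  rw [h2]
  exact (h1.isCompact.image (continuous_F_mk S j)).isClosed

theorem not_rel {S : Sys} {i j : ℕ} {b d : ℕ → Bool} (h : ¬ Rel S i j b d) :
    ∃ N, ∀ b' : ℕ → Bool, (∀ l < N, b' l = b l) → ¬ Rel S i j b' d :=
  exists_cylinder (isClosed_rel S i j d).isOpen_compl h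

/-- the real `a` has opinion `v` on the bit `n` -/
def Op (S : Sys) (a : ℕ → Bool) (n : ℕ) (v : Bool) : Prop :=
  H S a ∧ Le S (S.c n v) a ∧ ¬ Le S (S.c n (!v)) a

theorem Op.unique {S : Sys} {a : ℕ → Bool} {n : ℕ} {v v' : Bool} (h : Op S a n v)
    (h' : Op S a n v') : v = v' := by
  by_contra hne
  have : v' = !v := by
    revert hne
    cases v <;> cases v' <;> simp
  subst this
  exact h.2.2 h'.2.1

/-- mutual reducibility inside the family -/
def EqvS (S : Sys) (a b : ℕ → Bool) : Prop := Le S a b ∧ Le S b a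

theorem op_mono {S : Sys} {a b : ℕ → Bool} (h : EqvS S a b) {n : ℕ} {v : Bool}
    (ha : Op S a n v) : Op S b n v :=
  ⟨ha.1.mono h.2, ha.2.1.trans h.1, fun h' => ha.2.2 (h'.trans h.2)⟩

theorem op_eq {S : Sys} {a b : ℕ → Bool} (h : EqvS S a b) : Op S a = Op S b := by
  funext n v
  exact propext ⟨op_mono h, op_mono ⟨h.2, h.1⟩⟩

theorem le_of_row {S : Sys} {a : ℕ → Bool} {n : ℕ} {v : Bool}
    (h : ∃ K, ∀ k, K ≤ k → (Nat.unpair k).1 = n → a k = S.c n v (Nat.unpair k).2) :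
    Le S (S.c n v) a := by
  obtain ⟨K, hK⟩ := h
  obtain ⟨i, hi⟩ := S.row n (pre (S.c n v) K)
  refine ⟨i, ?_⟩
  rw [hi]
  funext k
  unfold rowMod
  rw [pre_length]
  split_ifs with hk
  · exact pre_getD _ hk
  · have h1 : K ≤ Nat.pair n k := le_trans (by omega) (Nat.right_le_pair n k)
    have h2 := hK (Nat.pair n k) h1 (by simp)
    rw [h2]
    simp

/-- The opinions of the real produced by the machine are the limits of the targets. -/
theorem op_mk (S : Sys) (ω : ℕ → ℕ → Bool) (m : ℕ) (v : Bool) (T : ℕ)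
    (h : ∀ t, T ≤ t → ω t m = v) : Op S (mk S ω) m v := by
  refine ⟨H_mk S ω, le_of_row ⟨(stg S ω (max T m)).length, fun κ hκ hm => ?_⟩, ?_⟩
  · obtain ⟨t, ht1, ht2⟩ := exists_stage S ω κ
    have htT : max T m ≤ t := by
      by_contra hlt
      push Not at hlt
      have := (stg_mono S ω (show t + 1 ≤ max T m by omega)).length_le
      omega
    have h1 := (stg_cmp S ω t).2 κ ht1 ht2 (by rw [pre_length]; omega)
    rw [ext_getD (ext_mk S ω (t + 1)) ht2, hm, pre_getD _ (by omega), h t (by omega)] at h1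
    exact h1
  · rintro ⟨i, hi⟩
    obtain ⟨s, hs1, hs2, hs3⟩ := exists_req i m (!v)
    have h1 : T ≤ Nat.pair s T := Nat.right_le_pair s T
    have h2 := stg_neg S ω (Nat.pair s T)
    simp only [Nat.unpair_pair] at h2
    rw [hs1, hs2, hs3, h _ h1] at h2
    exact h2 (by cases v <;> simp) _ (mk_mem S ω) (ext_mk S ω _) hi

end Pool.Agent.Helper56BP
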