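import Mathlib
import Pool.Agent.Helper56_BP.Mach

/-!
The coded game.
-/

set_option autoImplicit false
set_option linter.unusedSimpArgs false

namespace Pool.Agent.Helper56BP

/-! ### Tables of opinions -/

/-- the tables agree on bit `n` of the coded play -/
def Agr (O P : ℕ → Bool → Prop) (n : ℕ) : Prop := ∃ v, O (n + 1) v ∧ P (n + 1) v

/-- the first disagreement -/
def Fst (O P : ℕ → Bool → Prop) (n : ℕ) : Prop := ¬ Agr O P n ∧ ∀ j < n, Agr O P j

/-- side `true` (with table `P`) is blamed for the disagreement on bit `n` -/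
def Bl (O P : ℕ → Bool → Prop) (n : ℕ) : Prop :=
  (n % 2 = 0 ∧ ∃ v, O (n + 1) v) ∨ (n % 2 = 1 ∧ ¬ ∃ v, P (n + 1) v)

open Classical in
/-- the play described by a table -/
noncomputable def dec (O : ℕ → Bool → Prop) : ℕ → Bool := fun n => decide (O (n + 1) true)

/-- side `false` (with table `O`) wins against side `true` (with table `P`) -/
def Out (A : Set (ℕ → Bool)) (O P : ℕ → Bool → Prop) : Prop :=
  (∃ n, Fst O P n ∧ Bl O P n) ∨ ((∀ n, Agr O P n) ∧ dec O ∈ A)

/-- the result of the coded game, as a symmetric function of the two tables -/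
def Res (A : Set (ℕ → Bool)) (O P : ℕ → Bool → Prop) : Prop :=
  (O 0 false ∧ P 0 true ∧ Out A O P) ∨ (P 0 false ∧ O 0 true ∧ Out A P O) ∨
    ((O 0 false ∨ P 0 false) ∧ ¬ O 0 true ∧ ¬ P 0 true)

theorem Res.symm {A : Set (ℕ → Bool)} {O P : ℕ → Bool → Prop} (h : Res A O P) : Res A P O := by
  unfold Res at *
  tauto

/-- the payoff set of the coded game -/
def BB (S : Sys) (A : Set (ℕ → Bool)) : Set (ℕ → Bool) :=
  {x | Res A (Op S (movesI x)) (Op S (movesII x))}

/-- the stream of player `r` -/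
def strm (r : ℕ) (x : ℕ → Bool) : ℕ → Bool := fun k => x (2 * k + r)

/-- the table of player `r` in the play `x` -/
def Tb (S : Sys) (x : ℕ → Bool) (r : ℕ) : ℕ → Bool → Prop := Op S (strm r x)

/-- the play `x` is won by player `r` in the game with payoff set `A` -/
def Win (r : ℕ) (A : Set (ℕ → Bool)) (x : ℕ → Bool) : Prop := if r = 0 then x ∈ A else x ∉ A

/-- `x` is consistent with the strategy `σ` of player `r` -/
def Con (r : ℕ) (σ : List Bool → Bool) (x : ℕ → Bool) : Prop :=
  ∀ l, l % 2 = r → x l = σ (pre x l)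

/-- player `r` has a winning strategy -/
def WinsP (r : ℕ) (A : Set (ℕ → Bool)) : Prop := ∃ σ, ∀ x, Con r σ x → Win r A x

theorem winsI_iff (A : Set (ℕ → Bool)) : WinsI A ↔ WinsP 0 A := by
  constructor
  · rintro ⟨σ, hσ⟩
    exact ⟨σ, fun x hx => hσ x fun n => hx (2 * n) (by omega)⟩
  · rintro ⟨σ, hσ⟩
    refine ⟨σ, fun x hx => hσ x fun l hl => ?_⟩
    obtain ⟨n, rfl⟩ : ∃ n, l = 2 * n := ⟨l / 2, by omega⟩
    exact hx n

theorem winsII_iff (A : Set (ℕ → Bool)) : WinsII A ↔ WinsP 1 A := by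
  constructor
  · rintro ⟨σ, hσ⟩
    exact ⟨σ, fun x hx => hσ x fun n => hx (2 * n + 1) (by omega)⟩
  · rintro ⟨σ, hσ⟩
    refine ⟨σ, fun x hx => hσ x fun l hl => ?_⟩
    obtain ⟨n, rfl⟩ : ∃ n, l = 2 * n + 1 := ⟨l / 2, by omega⟩
    exact hx n

/-- the side of player `r` -/
def sd (r : ℕ) : Bool := decide (r = 1)

/-- player `r` wins the coded play, the sides being as they should -/
def OutW (S : Sys) (A : Set (ℕ → Bool)) (x : ℕ → Bool) (r : ℕ) : Prop :=
  if r = 0 then Out A (Tb S x 0) (Tb S x 1) else ¬ Out A (Tb S x 0) (Tb S x 1)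

/-- player `r` is blamed for the disagreement on bit `n` -/
def BlOn (S : Sys) (x : ℕ → Bool) (r n : ℕ) : Prop :=
  (n % 2 = r ∧ ¬ ∃ v, Tb S x r (n + 1) v) ∨ (n % 2 ≠ r ∧ ∃ v, Tb S x (1 - r) (n + 1) v)

theorem win_of_side {S : Sys} {A : Set (ℕ → Bool)} {x : ℕ → Bool} {r : ℕ} (hr : r < 2)
    (h1 : Tb S x r 0 (sd r)) (h2 : ¬ Tb S x (1 - r) 0 (sd (1 - r))) : Win r (BB S A) x := by
  interval_cases r
  · have h1' : Op S (movesI x) 0 false := h1
    have h2' : ¬ Op S (movesII x) 0 true := h2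
    unfold Win
    rw [if_pos rfl]
    exact Or.inr (Or.inr ⟨Or.inl h1', fun h => absurd (Op.unique h1' h) (by simp), h2'⟩)
  · have h1' : Op S (movesII x) 0 true := h1
    have h2' : ¬ Op S (movesI x) 0 false := h2
    unfold Win
    rw [if_neg (by norm_num)]
    rintro (⟨h, -, -⟩ | ⟨h, -, -⟩ | ⟨-, -, h⟩)
    · exact h2' h
    · exact absurd (Op.unique h1' h) (by simp)
    · exact h h1'

theorem win_iff_outW {S : Sys} {A : Set (ℕ → Bool)} {x : ℕ → Bool} {r : ℕ} (hr : r < 2)
    (h1 : Tb S x r 0 (sd r)) (h2 : Tb S x (1 - r) 0 (sd (1 - r))) :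
    Win r (BB S A) x ↔ OutW S A x r := by
  have h : Op S (movesI x) 0 false ∧ Op S (movesII x) 0 true := by
    interval_cases r
    · exact ⟨h1, h2⟩
    · exact ⟨h2, h1⟩
  have key : x ∈ BB S A ↔ Out A (Tb S x 0) (Tb S x 1) := by
    constructor
    · rintro (⟨-, -, h'⟩ | ⟨h', -, -⟩ | ⟨-, -, h'⟩)
      · exact h'
      · exact absurd (Op.unique h.2 h') (by simp)
      · exact absurd h.2 h'
    · intro h'
      exact Or.inl ⟨h.1, h.2, h'⟩
  unfold Win OutW
  rw [key]

theorem side_of_win {S : Sys} {A : Set (ℕ → Bool)} {x : ℕ → Bool} {r : ℕ} (hr : r < 2)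
    (h : Win r (BB S A) x) (h2 : Tb S x (1 - r) 0 (sd (1 - r))) : Tb S x r 0 (sd r) := by
  by_contra h1
  interval_cases r
  · have h1' : ¬ Op S (movesI x) 0 false := h1
    have h2' : Op S (movesII x) 0 true := h2
    unfold Win at h
    rw [if_pos rfl] at h
    rcases h with ⟨h, -, -⟩ | ⟨h, -, -⟩ | ⟨-, -, h⟩
    · exact h1' h
    · exact absurd (Op.unique h2' h) (by simp)
    · exact h h2'
  · have h1' : ¬ Op S (movesII x) 0 true := h1
    have h2' : Op S (movesI x) 0 false := h2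
    unfold Win at h
    rw [if_neg (by norm_num)] at h
    exact h (Or.inr (Or.inr ⟨Or.inl h2', fun h => absurd (Op.unique h2' h) (by simp), h1'⟩))

theorem Fst.unique {O P : ℕ → Bool → Prop} {n n' : ℕ} (h : Fst O P n) (h' : Fst O P n') :
    n = n' := by
  rcases lt_trichotomy n n' with hlt | heq | hgt
  · exact absurd (h'.2 n hlt) h.1
  · exact heq
  · exact absurd (h.2 n' hgt) h'.1

theorem exists_fst {O P : ℕ → Bool → Prop} (h : ¬ ∀ n, Agr O P n) : ∃ n, Fst O P n := by
  classical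
  push Not at h
  refine ⟨Nat.find h, Nat.find_spec h, fun j hj => ?_⟩
  have := Nat.find_min h hj
  push Not at this
  exact this

theorem outW_iff {S : Sys} {A : Set (ℕ → Bool)} {x : ℕ → Bool} {r : ℕ} (hr : r < 2) :
    OutW S A x r ↔ ((∀ n, Agr (Tb S x 0) (Tb S x 1) n) ∧ Win r A (dec (Tb S x 0))) ∨
      ∃ n, Fst (Tb S x 0) (Tb S x 1) n ∧ ¬ BlOn S x r n := by
  by_cases hall : ∀ n, Agr (Tb S x 0) (Tb S x 1) n
  · have hno : ∀ n, ¬ Fst (Tb S x 0) (Tb S x 1) n := fun n h => h.1 (hall n)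
    have h1 : Out A (Tb S x 0) (Tb S x 1) ↔ dec (Tb S x 0) ∈ A := by
      unfold Out
      constructor
      · rintro (⟨n, h, -⟩ | h)
        · exact absurd h (hno n)
        · exact h.2
      · exact fun h => Or.inr ⟨hall, h⟩
    have h2 : ¬ ∃ n, Fst (Tb S x 0) (Tb S x 1) n ∧ ¬ BlOn S x r n := fun ⟨n, h, _⟩ => hno n h
    unfold OutW Win
    rw [h1]
    simp only [hall, h2, or_false]
    tauto
  · obtain ⟨n, hn⟩ := exists_fst hall
    have h1 : Out A (Tb S x 0) (Tb S x 1) ↔ Bl (Tb S x 0) (Tb S x 1) n := by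
      unfold Out
      constructor
      · rintro (⟨m, hm, hb⟩ | h)
        · rw [hn.unique hm]; exact hb
        · exact absurd h.1 hall
      · exact fun h => Or.inl ⟨n, hn, h⟩
    have h2 : (∃ m, Fst (Tb S x 0) (Tb S x 1) m ∧ ¬ BlOn S x r m) ↔ ¬ BlOn S x r n := by
      constructor
      · rintro ⟨m, hm, hb⟩
        rw [hn.unique hm]; exact hb
      · exact fun h => ⟨n, hn, h⟩
    rw [h2]
    unfold OutW
    rw [h1]
    simp only [hall, false_and, false_or]
    unfold Bl BlOn
    interval_cases r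
    · simp only [if_true]
      rcases Nat.mod_two_eq_zero_or_one n with h | h
      · simp only [h, zero_ne_one, true_and, false_and, or_false, ne_eq, not_true_eq_false,
          one_ne_zero, not_false_eq_true, not_not, false_or]
      · simp only [h, zero_ne_one, true_and, false_and, or_false, ne_eq, not_true_eq_false,
          one_ne_zero, not_false_eq_true, not_not, false_or, zero_add, tsub_zero]
    · simp only [one_ne_zero, if_false]
      rcases Nat.mod_two_eq_zero_or_one n with h | h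
      · simp only [h, zero_ne_one, true_and, false_and, or_false, ne_eq, not_true_eq_false,
          one_ne_zero, not_false_eq_true, not_not, false_or]
      · simp only [h, zero_ne_one, true_and, false_and, or_false, ne_eq, not_true_eq_false,
          one_ne_zero, not_false_eq_true, not_not, false_or, zero_add, tsub_zero]

theorem agr_of {S : Sys} {x : ℕ → Bool} {r n : ℕ} {v : Bool} (hr : r < 2)
    (h1 : Tb S x r (n + 1) v) (h2 : Tb S x (1 - r) (n + 1) v) : Agr (Tb S x 0) (Tb S x 1) n := by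
  interval_cases r
  · exact ⟨v, h1, h2⟩
  · exact ⟨v, h2, h1⟩

open Classical in
theorem dec_eq {S : Sys} {x : ℕ → Bool} {r n : ℕ} {v : Bool} (hr : r < 2)
    (h : Agr (Tb S x 0) (Tb S x 1) n) (h1 : Tb S x r (n + 1) v) : dec (Tb S x 0) n = v := by
  obtain ⟨v', h0, h1'⟩ := h
  have hv : v = v' := by
    interval_cases r
    · exact Op.unique h1 h0
    · exact Op.unique h1 h1'
  subst hv
  unfold dec
  cases v
  · rw [decide_eq_false_iff_not]
    intro h'
    exact absurd (Op.unique h0 h') (by simp)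
  · rw [decide_eq_true_iff]
    exact h0

theorem agree_dec {S : Sys} {x : ℕ → Bool} {r n : ℕ} (hr : r < 2)
    (h : Agr (Tb S x 0) (Tb S x 1) n) : Tb S x r (n + 1) (dec (Tb S x 0) n) := by
  have h' := h
  obtain ⟨v, h0, h1⟩ := h'
  rw [dec_eq (r := 0) (by norm_num) h h0]
  interval_cases r
  · exact h0
  · exact h1

end Pool.Agent.Helper56BP
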