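import Mathlib
import Pool.Agent.Helper56_BP.Game

/-!
A winning strategy for `A` gives one for the coded game.
-/

set_option autoImplicit false

namespace Pool.Agent.Helper56BP

theorem track (S : Sys) (tgt : List Bool → ℕ → Bool) :
    ∃ Θ : (ℕ → Bool) → (ℕ → Bool), (∀ b b' l, (∀ i < l, b i = b' i) → Θ b l = Θ b' l) ∧
      ∀ b m v, (∃ K, ∀ k, K ≤ k → tgt (pre b k) m = v) → Op S (Θ b) m v := by
  refine ⟨fun b => mk S fun t => tgt (pre b t), fun b b' l h => ?_, fun b m v h => ?_⟩
  · refine mk_congr (T := l + 1) (fun t ht m _ => ?_) (stg_le S _ (l + 1))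
    rw [(pre_eq_iff b b' t).2 fun i hi => h i (by omega)]
  · obtain ⟨K, hK⟩ := h
    exact op_mk S _ m v K hK

/-- the opinion with code `e` -/
def cv (e : ℕ) : Bool := decide (e % 2 = 1)
/-- the first map with code `e` -/
def ci (e : ℕ) : ℕ := (Nat.unpair (e / 2)).1
/-- the second map with code `e` -/
def cg (e : ℕ) : ℕ := (Nat.unpair (e / 2)).2

theorem exists_code (i g : ℕ) (v : Bool) : ∃ e, ci e = i ∧ cg e = g ∧ cv e = v := by
  cases v
  · refine ⟨2 * Nat.pair i g, ?_, ?_, by simp [cv]⟩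
    · unfold ci
      rw [show 2 * Nat.pair i g / 2 = Nat.pair i g by omega]
      simp
    · unfold cg
      rw [show 2 * Nat.pair i g / 2 = Nat.pair i g by omega]
      simp
  · refine ⟨2 * Nat.pair i g + 1, ?_, ?_, by simp [cv]⟩
    · unfold ci
      rw [show (2 * Nat.pair i g + 1) / 2 = Nat.pair i g by omega]
      simp
    · unfold cg
      rw [show (2 * Nat.pair i g + 1) / 2 = Nat.pair i g by omega]
      simp

/-- the string `s` does not refute the guess `e` -/
def NotRef (S : Sys) (m : ℕ) (s : List Bool) (e : ℕ) : Prop :=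
  ∃ b, Ext s b ∧ Rel S (ci e) (cg e) b (S.c m (cv e))

open Classical in
/-- the guess, on the basis of the string `s`, of the opinion on bit `m` -/
noncomputable def guess (S : Sys) (s : List Bool) (m : ℕ) : Bool :=
  if h : ∃ e, NotRef S m s e then cv (Nat.find h) else false

open Classical in
theorem guess_eventually {S : Sys} {b : ℕ → Bool} {m : ℕ} {v : Bool} (h : Op S b m v) :
    ∃ K, ∀ k, K ≤ k → guess S (pre b k) m = v := by
  have hex : ∃ e, Rel S (ci e) (cg e) b (S.c m (cv e)) := by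
    obtain ⟨i, g, hi⟩ := exists_rel h.1 h.2.1
    obtain ⟨e, he1, he2, he3⟩ := exists_code i g v
    exact ⟨e, by rw [he1, he2, he3]; exact hi⟩
  have href : ∀ e, ¬ Rel S (ci e) (cg e) b (S.c m (cv e)) →
      ∃ K, ∀ k, K ≤ k → ¬ NotRef S m (pre b k) e := by
    intro e he
    obtain ⟨N, hN⟩ := not_rel he
    refine ⟨N, fun k hk hn => ?_⟩
    obtain ⟨b', hb', hrel⟩ := hn
    unfold Ext at hb'
    rw [pre_length, pre_eq_iff] at hb'
    exact hN b' (fun l hl => hb' l (by omega)) hrel
  have hmin : ∀ E, (∀ e < E, ¬ Rel S (ci e) (cg e) b (S.c m (cv e))) →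
      ∃ K, ∀ k, K ≤ k → ∀ e < E, ¬ NotRef S m (pre b k) e := by
    intro E
    induction E with
    | zero => exact fun _ => ⟨0, fun k _ e he => by omega⟩
    | succ E ih =>
      intro hE
      obtain ⟨K, hK⟩ := ih fun e he => hE e (by omega)
      obtain ⟨K', hK'⟩ := href E (hE E (by omega))
      refine ⟨max K K', fun k hk e he => ?_⟩
      rcases Nat.lt_succ_iff_lt_or_eq.1 he with h1 | h1
      · exact hK k (le_trans (le_max_left _ _) hk) e h1
      · subst h1
        exact hK' k (le_trans (le_max_right _ _) hk)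
  obtain ⟨K, hK⟩ := hmin (Nat.find hex) fun e he => Nat.find_min hex he
  refine ⟨K, fun k hk => ?_⟩
  have h1 : NotRef S m (pre b k) (Nat.find hex) := ⟨b, Ext.pre b k, Nat.find_spec hex⟩
  have h2 : ∃ e, NotRef S m (pre b k) e := ⟨_, h1⟩
  have h3 : Nat.find h2 = Nat.find hex := by
    rw [Nat.find_eq_iff]
    exact ⟨h1, fun e he => hK k hk e he⟩
  unfold guess
  rw [dif_pos h2, h3]
  by_contra hne
  apply h.2.2
  have h4 : cv (Nat.find hex) = !v := by
    revert hne
    cases v <;> cases cv (Nat.find hex) <;> simp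
  rw [← h4]
  exact (Nat.find_spec hex).le

/-- the run of the game `A` against the opinions `o` -/
def hist (r : ℕ) (σ : List Bool → Bool) (o : ℕ → Bool) : ℕ → List Bool
  | 0 => []
  | n + 1 => hist r σ o n ++ [if n % 2 = r then σ (hist r σ o n) else o n]

/-- the opinions to be followed by player `r` -/
noncomputable def target (S : Sys) (r : ℕ) (σ : List Bool → Bool) (s : List Bool) : ℕ → Bool
  | 0 => sd r
  | n + 1 => if n % 2 = r then σ (hist r σ (fun j => guess S s (j + 1)) n) else guess S s (n + 1)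

theorem target_succ (S : Sys) (r : ℕ) (σ : List Bool → Bool) (s : List Bool) (n : ℕ) :
    target S r σ s (n + 1) = if n % 2 = r then
      σ (hist r σ (fun j => guess S s (j + 1)) n) else guess S s (n + 1) := rfl

theorem hist_eventually {S : Sys} {r : ℕ} (hr : r < 2) {σ : List Bool → Bool} {x : ℕ → Bool}
    (hx : ∀ m v, (∃ K, ∀ k, K ≤ k → target S r σ (pre (strm (1 - r) x) k) m = v) →
      Tb S x r m v) {n : ℕ} (hn : ∀ j < n, Agr (Tb S x 0) (Tb S x 1) j) :
    (∃ K, ∀ k, K ≤ k → hist r σ (fun j => guess S (pre (strm (1 - r) x) k) (j + 1)) n =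
      pre (dec (Tb S x 0)) n) ∧
      ∀ j < n, j % 2 = r → dec (Tb S x 0) j = σ (pre (dec (Tb S x 0)) j) := by
  induction n with
  | zero => exact ⟨⟨0, fun m _ => rfl⟩, fun j hj => by omega⟩
  | succ n ih =>
    obtain ⟨⟨N, hN⟩, h2⟩ := ih fun j hj => hn j (by omega)
    have hA := hn n (by omega)
    by_cases hnr : n % 2 = r
    · have key : dec (Tb S x 0) n = σ (pre (dec (Tb S x 0)) n) := by
        refine dec_eq hr hA (hx _ _ ⟨N, fun k hk => ?_⟩)
        rw [target_succ]
        rw [if_pos hnr, hN k hk]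
      refine ⟨⟨N, fun m hm => ?_⟩, fun j hj hjr => ?_⟩
      · unfold hist
        rw [if_pos hnr, hN m hm, pre_succ, ← key]
      · rcases Nat.lt_succ_iff_lt_or_eq.1 hj with h | h
        · exact h2 j h hjr
        · subst h; exact key
    · obtain ⟨N', hN'⟩ := guess_eventually
        (show Op S (strm (1 - r) x) (n + 1) (dec (Tb S x 0) n) from
          agree_dec (r := 1 - r) (by omega) hA)
      refine ⟨⟨max N N', fun m hm => ?_⟩, fun j hj hjr => ?_⟩
      · unfold hist
        rw [if_neg hnr, hN m (le_trans (le_max_left _ _) hm), pre_succ,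
          hN' m (le_trans (le_max_right _ _) hm)]
      · rcases Nat.lt_succ_iff_lt_or_eq.1 hj with h | h
        · exact h2 j h hjr
        · subst h; exact absurd hjr hnr

theorem winsP_BB {S : Sys} {r : ℕ} (hr : r < 2) {A : Set (ℕ → Bool)} (h : WinsP r A) :
    WinsP r (BB S A) := by
  obtain ⟨σ, hσ⟩ := h
  obtain ⟨Θ, hΘ1, hΘ2⟩ := track S (target S r σ)
  refine ⟨fun z => Θ (fun k => z.getD (2 * k + (1 - r)) false) (z.length / 2), fun x hx => ?_⟩
  have hown : strm r x = Θ (strm (1 - r) x) := by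
    funext l
    have h1 := hx (2 * l + r) (by omega)
    change x (2 * l + r) = _
    rw [h1]
    simp only [pre_length]
    have h2 : (2 * l + r) / 2 = l := by omega
    rw [h2]
    refine hΘ1 _ _ l fun k hk => ?_
    rw [pre_getD x (by omega)]
    rfl
  have hT : ∀ m v, (∃ K, ∀ k, K ≤ k → target S r σ (pre (strm (1 - r) x) k) m = v) →
      Tb S x r m v := by
    intro m v hv
    unfold Tb
    rw [hown]
    exact hΘ2 _ m v hv
  have hside : Tb S x r 0 (sd r) := hT 0 _ ⟨0, fun k _ => rfl⟩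
  by_cases hopp : Tb S x (1 - r) 0 (sd (1 - r))
  swap
  · exact win_of_side hr hside hopp
  rw [win_iff_outW hr hside hopp, outW_iff hr]
  by_cases hall : ∀ n, Agr (Tb S x 0) (Tb S x 1) n
  · refine Or.inl ⟨hall, hσ _ fun l hl => ?_⟩
    exact (hist_eventually hr hT (n := l + 1) fun j _ => hall j).2 l (by omega) hl
  · obtain ⟨n, hn⟩ := exists_fst hall
    refine Or.inr ⟨n, hn, ?_⟩
    obtain ⟨⟨N, hN⟩, -⟩ := hist_eventually hr hT hn.2
    rintro (⟨hnr, hno⟩ | ⟨hnr, v, hv⟩)
    · apply hno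
      refine ⟨σ (pre (dec (Tb S x 0)) n), hT _ _ ⟨N, fun k hk => ?_⟩⟩
      rw [target_succ]
      rw [if_pos hnr, hN k hk]
    · apply hn.1
      obtain ⟨K, hK⟩ := guess_eventually hv
      refine agr_of hr (hT (n + 1) v ⟨K, fun k hk => ?_⟩) hv
      rw [target_succ]
      rw [if_neg hnr, hK k hk]

end Pool.Agent.Helper56BP
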