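import Mathlib
import Pool.Agent.Helper56_BP.Fwd

/-!
A winning strategy for the coded game gives one for `A`.
-/

set_option autoImplicit false

namespace Pool.Agent.Helper56BP

/-! ### Plays against the machine -/

theorem exists_pl (r : ℕ) (σ : List Bool → Bool) (a : ℕ → Bool) :
    ∃ x : ℕ → Bool, ∀ l, x l = if l % 2 = r then σ (pre x l) else a (l / 2) := by
  obtain ⟨x, -, hx⟩ := exists_run
    (fun s => if s.length % 2 = r then σ s else a (s.length / 2)) []
  refine ⟨x, fun l => ?_⟩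
  have := hx l (by simp)
  simpa using this

/-- the play in which player `r` uses `σ` and his opponent produces the real `a` -/
noncomputable def pl (r : ℕ) (σ : List Bool → Bool) (a : ℕ → Bool) : ℕ → Bool :=
  (exists_pl r σ a).choose

theorem pl_spec (r : ℕ) (σ : List Bool → Bool) (a : ℕ → Bool) (l : ℕ) :
    pl r σ a l = if l % 2 = r then σ (pre (pl r σ a) l) else a (l / 2) :=
  (exists_pl r σ a).choose_spec l

theorem con_pl (r : ℕ) (σ : List Bool → Bool) (a : ℕ → Bool) : Con r σ (pl r σ a) := by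
  intro l hl
  rw [pl_spec, if_pos hl]

theorem strm_pl {r : ℕ} (hr : r < 2) (σ : List Bool → Bool) (a : ℕ → Bool) :
    strm (1 - r) (pl r σ a) = a := by
  funext k
  unfold strm
  rw [pl_spec, if_neg (by omega)]
  congr 1
  omega

theorem pl_congr {r : ℕ} {σ : List Bool → Bool} {a a' : ℕ → Bool} {N : ℕ}
    (h : ∀ k < N, a k = a' k) : ∀ l < 2 * N, pl r σ a l = pl r σ a' l := by
  intro l
  induction l using Nat.strong_induction_on with
  | _ l ih =>
    intro hl
    rw [pl_spec r σ a, pl_spec r σ a']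
    rw [(pre_eq_iff (pl r σ a) (pl r σ a') l).2 fun i hi => ih i hi (by omega),
      h (l / 2) (by omega)]

/-- the real produced by player `r` with the strategy `σ` against the machine -/
noncomputable def own (S : Sys) (r : ℕ) (σ : List Bool → Bool) (ω : ℕ → ℕ → Bool) : ℕ → Bool :=
  strm r (pl r σ (mk S ω))

/-- the target sequences agree before stage `T` -/
def AgB (T : ℕ) (ω ω' : ℕ → ℕ → Bool) : Prop := ∀ t < T, ∀ m, ω t m = ω' t m

theorem AgB.refl (T : ℕ) (ω : ℕ → ℕ → Bool) : AgB T ω ω := fun _ _ _ => rfl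

theorem AgB.trans {T T' : ℕ} {ω ω' ω'' : ℕ → ℕ → Bool} (h : AgB T ω ω') (h' : AgB T' ω' ω'')
    (hT : T ≤ T') : AgB T ω ω'' := fun t ht m => (h t ht m).trans (h' t (by omega) m)

theorem own_congr {S : Sys} {r : ℕ} (hr : r < 2) {σ : List Bool → Bool} {ω ω' : ℕ → ℕ → Bool}
    {T : ℕ} (h : AgB T ω ω') {k : ℕ} (hk : k ≤ T) :
    pre (own S r σ ω) k = pre (own S r σ ω') k := by
  rw [pre_eq_iff]
  intro i hi
  refine pl_congr (N := T) (fun l hl => mk_congr (fun t ht m _ => h t ht m)
    (lt_of_lt_of_le hl (stg_le S ω T))) _ ?_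
  omega

/-- from stage `T` on the targets follow `u` -/
def Fol (ω : ℕ → ℕ → Bool) (u : List Bool) (T : ℕ) : Prop :=
  ∀ t, T ≤ t → ∀ m < u.length, ω t m = u.getD m false

/-- between the stages `T` and `T'` the targets follow `u` -/
def FolB (ω : ℕ → ℕ → Bool) (u : List Bool) (T T' : ℕ) : Prop :=
  ∀ t, T ≤ t → t < T' → ∀ m < u.length, ω t m = u.getD m false

/-- own bits below `u.length` are settled -/
def Inv (S : Sys) (r : ℕ) (σ : List Bool → Bool) (ω : ℕ → ℕ → Bool) (T : ℕ) (u : List Bool) :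
    Prop :=
  ∀ n, n % 2 = r → n + 1 < u.length → ∃ i g, ∀ ω', AgB T ω ω' → Fol ω' u T →
    Rel S i g (own S r σ ω') (S.c (n + 1) (u.getD (n + 1) false))

theorem getD_append_lt {u : List Bool} {v : Bool} {j : ℕ} (h : j < u.length) :
    (u ++ [v]).getD j false = u.getD j false := by
  rw [List.getD_eq_getElem _ _ (by simp; omega), List.getD_eq_getElem _ _ h,
    List.getElem_append_left h]

theorem getD_append_eq {u : List Bool} {v : Bool} :
    (u ++ [v]).getD u.length false = v := by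
  rw [List.getD_eq_getElem _ _ (by simp)]
  simp

theorem Fol.of_append {ω : ℕ → ℕ → Bool} {u : List Bool} {v : Bool} {T : ℕ}
    (h : Fol ω (u ++ [v]) T) : Fol ω u T := by
  intro t ht m hm
  rw [h t ht m (by simp; omega), getD_append_lt hm]

theorem Inv.mono {S : Sys} {r : ℕ} {σ : List Bool → Bool} {ω ω1 : ℕ → ℕ → Bool} {T T1 : ℕ}
    {u : List Bool} (h : Inv S r σ ω T u) (hT : T ≤ T1) (h1 : AgB T ω ω1) (h2 : FolB ω1 u T T1) :
    Inv S r σ ω1 T1 u := by
  intro n hn hnu
  obtain ⟨i, g, hi⟩ := h n hn hnu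
  refine ⟨i, g, fun ω' ha hf => hi ω' (h1.trans ha hT) fun t ht m hm => ?_⟩
  by_cases ht1 : t < T1
  · rw [← ha t ht1 m]
    exact h2 t ht ht1 m hm
  · exact hf t (by omega) m hm

theorem Inv.append {S : Sys} {r : ℕ} {σ : List Bool → Bool} {ω : ℕ → ℕ → Bool} {T : ℕ}
    {u : List Bool} (h : Inv S r σ ω T u) (b : Bool) {n : ℕ} (hu : u.length = n + 1)
    (hn : n % 2 ≠ r) : Inv S r σ ω T (u ++ [b]) := by
  intro m hm hmu
  have hmu' : m + 1 < u.length := by
    rw [List.length_append, List.length_singleton] at hmu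
    have : m ≠ n := by
      rintro rfl
      exact hn hm
    omega
  obtain ⟨i, g, hi⟩ := h m hm hmu'
  exact ⟨i, g, fun ω' ha hf => by
    rw [getD_append_lt hmu']; exact hi ω' ha hf.of_append⟩

/-- limits of target sequences -/
theorem exists_seq_limit (s : ℕ → (ℕ → ℕ → Bool) × ℕ) (h1 : ∀ e, (s e).2 < (s (e + 1)).2)
    (h2 : ∀ e, AgB (s e).2 (s e).1 (s (e + 1)).1) :
    (∀ e, e ≤ (s e).2) ∧ ∃ ω, ∀ e, AgB (s e).2 (s e).1 ω := by
  have hle : ∀ e, e ≤ (s e).2 := by
    intro e
    induction e with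
    | zero => omega
    | succ e ih => have := h1 e; omega
  have hmono : ∀ {e e'}, e ≤ e' → (s e).2 ≤ (s e').2 ∧ AgB (s e).2 (s e).1 (s e').1 := by
    intro e e' h
    induction h with
    | refl => exact ⟨le_rfl, AgB.refl _ _⟩
    | @step m _ ih => exact ⟨ih.1.trans (h1 m).le, ih.2.trans (h2 m) ih.1⟩
  refine ⟨hle, fun t => (s (t + 1)).1 t, fun e t ht m => ?_⟩
  rcases le_total e (t + 1) with h | h
  · exact (hmono h).2 t ht m
  · exact ((hmono h).2 t (by have := hle (t + 1); omega) m).symm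

theorem agree_of_outW {S : Sys} {r : ℕ} (hr : r < 2) {A : Set (ℕ → Bool)} {x : ℕ → Bool}
    (hx : OutW S A x r) {n : ℕ} {w : ℕ → Bool} (h1 : ∀ j < n, Tb S x (1 - r) (j + 1) (w j))
    (h2 : ∀ j < n, j % 2 = r → Le S (S.c (j + 1) (w j)) (strm r x)) :
    ∀ j < n, Agr (Tb S x 0) (Tb S x 1) j := by
  intro j
  induction j using Nat.strong_induction_on with
  | _ j ih =>
    intro hj
    by_contra hA
    have hF : Fst (Tb S x 0) (Tb S x 1) j := ⟨hA, fun i hi => ih i hi (by omega)⟩
    have hb : BlOn S x r j := by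
      by_cases hjr : j % 2 = r
      · refine Or.inl ⟨hjr, ?_⟩
        rintro ⟨v, hv⟩
        have hvw : v = w j := by
          by_contra hne
          apply hv.2.2
          have : (!v) = w j := by
            revert hne
            cases v <;> cases w j <;> simp
          rw [this]
          exact h2 j hj hjr
        subst hvw
        exact hA (agr_of hr hv (h1 j hj))
      · exact Or.inr ⟨hjr, _, h1 j hj⟩
    rw [outW_iff hr] at hx
    rcases hx with ⟨hS, _⟩ | ⟨m, hm, hmb⟩
    · exact hA (hS j)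
    · rw [hm.unique hF] at hmb
      exact hmb hb

/-- own bits get settled -/
theorem step {S : Sys} {r : ℕ} (hr : r < 2) {σ : List Bool → Bool} {A : Set (ℕ → Bool)}
    (hσ : ∀ x, Con r σ x → Win r (BB S A) x) {ω : ℕ → ℕ → Bool} {T : ℕ} {u : List Bool}
    (hI : Inv S r σ ω T u) {n : ℕ} (hu : u.length = n + 1) (hu0 : u.getD 0 false = sd (1 - r))
    (hn : n % 2 = r) :
    ∃ ω1 T1 v, T < T1 ∧ AgB T ω ω1 ∧ FolB ω1 u T T1 ∧ Inv S r σ ω1 T1 (u ++ [v]) := by
  by_contra hno
  push Not at hno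
  let Gd : (ℕ → ℕ → Bool) × ℕ → Prop := fun q => T < q.2 ∧ AgB T ω q.1 ∧ FolB q.1 u T q.2
  have key : ∀ (q : {q // Gd q}) (e : ℕ), ∃ q' : {q // Gd q}, q.1.2 < q'.1.2 ∧
      AgB q.1.2 q.1.1 q'.1.1 ∧ ∀ ω', AgB q'.1.2 q'.1.1 ω' →
        ¬ Rel S (ci e) (cg e) (own S r σ ω') (S.c (n + 1) (cv e)) := by
    rintro ⟨⟨ω1, T1⟩, hT1, hω1, hf1⟩ e
    have h1 := hno ω1 T1 (cv e) hT1 hω1 hf1
    unfold Inv at h1
    push Not at h1
    obtain ⟨n', hn', hnu, hall⟩ := h1
    have hnn : n' = n := by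
      by_contra hne
      have hlt : n' + 1 < u.length := by
        rw [List.length_append, List.length_singleton] at hnu
        omega
      obtain ⟨i, g, hig⟩ := (hI.mono hT1.le hω1 hf1) n' hn' hlt
      obtain ⟨ω', ha, hf, hne'⟩ := hall i g
      apply hne'
      rw [getD_append_lt hlt]
      exact hig ω' ha hf.of_append
    subst hnn
    obtain ⟨ω2, ha, hf, hne'⟩ := hall (ci e) (cg e)
    rw [show n' + 1 = u.length by omega, getD_append_eq, ← show n' + 1 = u.length by omega]
      at hne'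
    obtain ⟨N, hN⟩ := not_rel hne'
    refine ⟨⟨(ω2, max (T1 + 1) N), ?_, hω1.trans ha hT1.le, ?_⟩, ?_, ha, ?_⟩
    · change T < max (T1 + 1) N
      exact lt_of_lt_of_le (lt_trans hT1 (Nat.lt_succ_self _)) (le_max_left _ _)
    · intro t ht _ m hm
      by_cases ht1 : t < T1
      · exact (ha t ht1 m).symm.trans (hf1 t ht ht1 m hm)
      · exact hf.of_append t (by omega) m hm
    · change T1 < max (T1 + 1) N
      exact lt_of_lt_of_le (Nat.lt_succ_self _) (le_max_left _ _)
    · intro ω' hag hrel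
      refine hN _ (fun l hl => ?_) hrel
      have h2 := own_congr (S := S) (σ := σ) hr hag (le_max_right (T1 + 1) N)
      rw [pre_eq_iff] at h2
      exact (h2 l hl).symm
  choose f hf1 hf2 hf3 using key
  let q0 : {q // Gd q} := ⟨(fun t m => if t < T then ω t m else u.getD m false, T + 1),
    Nat.lt_succ_self _, fun t ht m => (if_pos ht).symm, fun t ht _ m _ => by
      change (if t < T then ω t m else u.getD m false) = _
      rw [if_neg (by omega)]⟩
  obtain ⟨s, hs0, hss⟩ : ∃ s : ℕ → {q // Gd q}, s 0 = q0 ∧ ∀ e, s (e + 1) = f (s e) e :=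
    ⟨fun n => Nat.rec q0 (fun e q => f q e) n, rfl, fun n => rfl⟩
  obtain ⟨hle, ω', hω'⟩ := exists_seq_limit (fun e => (s e).1)
    (fun e => by rw [hss]; exact hf1 (s e) e)
    (fun e => by rw [hss]; exact hf2 (s e) e)
  have hag : AgB T ω ω' := (s 0).2.2.1.trans (hω' 0) (s 0).2.1.le
  have hfol : Fol ω' u T := by
    intro t ht m hm
    have h1 : t + 1 ≤ (s (t + 1)).1.2 := hle (t + 1)
    rw [← hω' (t + 1) t (by omega) m]
    exact (s (t + 1)).2.2.2 t ht (by omega) m hm
  set x := pl r σ (mk S ω') with hx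
  have hxc : Con r σ x := con_pl _ _ _
  have hopp : ∀ m < u.length, Tb S x (1 - r) m (u.getD m false) := by
    intro m hm
    unfold Tb
    rw [hx, strm_pl hr]
    exact op_mk S ω' m _ T fun t ht => hfol t ht m hm
  have hown : ¬ ∃ v, Tb S x r (n + 1) v := by
    rintro ⟨v, hH, hv, -⟩
    obtain ⟨i, g, hig⟩ := exists_rel hH hv
    obtain ⟨e, he1, he2, he3⟩ := exists_code i g v
    refine hf3 (s e) e ω' ?_ ?_
    · rw [← hss]
      exact hω' (e + 1)
    · rw [he1, he2, he3]
      exact hig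
  have h0 : Tb S x (1 - r) 0 (sd (1 - r)) := by
    rw [← hu0]
    exact hopp 0 (by omega)
  have hw := hσ x hxc
  have hs := side_of_win hr hw h0
  rw [win_iff_outW hr hs h0] at hw
  have hagree : ∀ j < n, Agr (Tb S x 0) (Tb S x 1) j := by
    refine agree_of_outW hr hw (w := fun j => u.getD (j + 1) false)
      (fun j hj => hopp (j + 1) (by omega)) fun j hj hjr => ?_
    obtain ⟨i, g, hi⟩ := hI j hjr (by omega)
    exact (hi ω' hag hfol).le
  have hF : Fst (Tb S x 0) (Tb S x 1) n :=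
    ⟨fun hA => hown ⟨_, agree_dec hr hA⟩, hagree⟩
  rw [outW_iff hr] at hw
  rcases hw with ⟨hS, _⟩ | ⟨m, hm, hmb⟩
  · exact hF.1 (hS _)
  · rw [hm.unique hF] at hmb
    exact hmb (Or.inl ⟨hn, hown⟩)

theorem full_step {S : Sys} {r : ℕ} (hr : r < 2) {σ : List Bool → Bool} {A : Set (ℕ → Bool)}
    (hσ : ∀ x, Con r σ x → Win r (BB S A) x) {ω : ℕ → ℕ → Bool} {T : ℕ} {u : List Bool}
    (hI : Inv S r σ ω T u) {n : ℕ} (hu : u.length = n + 1)
    (hu0 : u.getD 0 false = sd (1 - r)) :
    ∃ ω1 T1 v, T < T1 ∧ AgB T ω ω1 ∧ FolB ω1 u T T1 ∧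
      (n % 2 = r → Inv S r σ ω1 T1 (u ++ [v])) := by
  by_cases hn : n % 2 = r
  · obtain ⟨ω1, T1, v, h1, h2, h3, h4⟩ := step hr hσ hI hu hu0 hn
    exact ⟨ω1, T1, v, h1, h2, h3, fun _ => h4⟩
  · refine ⟨fun t m => if t < T then ω t m else u.getD m false, T + 1, false,
      Nat.lt_succ_self _, fun t ht m => (if_pos ht).symm, fun t ht _ m _ => ?_,
      fun h => absurd h hn⟩
    change (if t < T then ω t m else u.getD m false) = _
    rw [if_neg (by omega)]

/-- the simulated positions of the coded game -/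
def sim (ns : ℕ → (ℕ → ℕ → Bool) × ℕ → List Bool → (ℕ → ℕ → Bool) × ℕ) (U : ℕ → Bool) :
    ℕ → (ℕ → ℕ → Bool) × ℕ
  | 0 => (fun _ _ => false, 0)
  | n + 1 => ns n (sim ns U n) (pre U (n + 1))

theorem sim_congr {ns : ℕ → (ℕ → ℕ → Bool) × ℕ → List Bool → (ℕ → ℕ → Bool) × ℕ}
    {U U' : ℕ → Bool} {n : ℕ} (h : ∀ i < n + 1, U i = U' i) : sim ns U n = sim ns U' n := by
  induction n with
  | zero => rfl
  | succ n ih =>
    unfold sim
    rw [ih fun i hi => h i (by omega), (pre_eq_iff U U' (n + 1)).2 fun i hi => h i (by omega)]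

/-- the opinions that the opponent of `r` should have when the play of `A` is `w` -/
def opp (r : ℕ) (w : ℕ → Bool) : ℕ → Bool
  | 0 => sd (1 - r)
  | n + 1 => w n

theorem winsP_of_BB {S : Sys} {r : ℕ} (hr : r < 2) {A : Set (ℕ → Bool)}
    (h : WinsP r (BB S A)) : WinsP r A := by
  obtain ⟨σ, hσ⟩ := h
  have hst : ∀ (n : ℕ) (q : (ℕ → ℕ → Bool) × ℕ) (u : List Bool),
      ∃ (q' : (ℕ → ℕ → Bool) × ℕ) (v : Bool), Inv S r σ q.1 q.2 u → u.length = n + 1 →
      u.getD 0 false = sd (1 - r) →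
      q.2 < q'.2 ∧ AgB q.2 q.1 q'.1 ∧ FolB q'.1 u q.2 q'.2 ∧
        (n % 2 = r → Inv S r σ q'.1 q'.2 (u ++ [v])) := by
    intro n q u
    by_cases h : Inv S r σ q.1 q.2 u ∧ u.length = n + 1 ∧ u.getD 0 false = sd (1 - r)
    · obtain ⟨ω1, T1, v, hqv⟩ := full_step hr hσ h.1 h.2.1 h.2.2
      exact ⟨(ω1, T1), v, fun _ _ _ => hqv⟩
    · exact ⟨q, false, fun h1 h2 h3 => absurd ⟨h1, h2, h3⟩ h⟩
  choose nq nv hst using hst
  refine ⟨fun s => nv s.length (sim nq (opp r fun i => s.getD i false) s.length)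
    (pre (opp r fun i => s.getD i false) (s.length + 1)), fun w hw => ?_⟩
  set U := opp r w with hU
  have hw' : ∀ l, l % 2 = r → w l = nv l (sim nq U l) (pre U (l + 1)) := by
    intro l hl
    have h1 := hw l hl
    simp only [pre_length] at h1
    have h2 : ∀ i < l + 1, opp r (fun i => (pre w l).getD i false) i = U i := by
      intro i hi
      cases i with
      | zero => rfl
      | succ i =>
        change (pre w l).getD i false = w i
        exact pre_getD w (by omega)
    rw [sim_congr h2, (pre_eq_iff _ _ (l + 1)).2 h2] at h1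
    exact h1
  set Q := sim nq U with hQ
  have hQs : ∀ n, Q (n + 1) = nq n (Q n) (pre U (n + 1)) := fun n => rfl
  have hU0 : ∀ n, (pre U (n + 1)).getD 0 false = sd (1 - r) := by
    intro n
    rw [pre_getD U (by omega)]
    rfl
  have hinv : ∀ n, Inv S r σ (Q n).1 (Q n).2 (pre U (n + 1)) := by
    intro n
    induction n with
    | zero =>
      intro m _ hm
      rw [pre_length] at hm
      omega
    | succ n ih =>
      obtain ⟨h1, h2, h3, h4⟩ := hst n (Q n) (pre U (n + 1)) ih (by simp) (hU0 n)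
      rw [hQs n, pre_succ U (n + 1)]
      by_cases hn : n % 2 = r
      · have h5 := h4 hn
        rw [← hw' n hn] at h5
        exact h5
      · exact (ih.mono h1.le h2 h3).append _ (by simp) hn
  have hall : ∀ n, (Q n).2 < (Q (n + 1)).2 ∧ AgB (Q n).2 (Q n).1 (Q (n + 1)).1 ∧
      FolB (Q (n + 1)).1 (pre U (n + 1)) (Q n).2 (Q (n + 1)).2 := by
    intro n
    obtain ⟨h1, h2, h3, -⟩ := hst n (Q n) (pre U (n + 1)) (hinv n) (by simp) (hU0 n)
    exact ⟨h1, h2, h3⟩
  obtain ⟨hle, ω, hω⟩ := exists_seq_limit Q (fun n => (hall n).1) fun n => (hall n).2.1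
  have hmono : ∀ {n n'}, n ≤ n' → (Q n).2 ≤ (Q n').2 := by
    intro n n' h
    induction h with
    | refl => exact le_rfl
    | @step m _ ih => exact ih.trans (hall m).1.le
  have hseg : ∀ n n' t, n ≤ n' → (Q n).2 ≤ t → t < (Q n').2 → ∀ m < n + 1,
      ω t m = U m := by
    intro n n'
    induction n' with
    | zero =>
      intro t _ _ h2
      simp [hQ, sim] at h2
    | succ n' ih =>
      intro t h1 h2 h3 m hm
      by_cases hlt : t < (Q n').2
      · by_cases hnm : n ≤ n'
        · exact ih t hnm h2 hlt m hm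
        · have : n = n' + 1 := by omega
          subst this
          omega
      · have hnm : n ≤ n' := by
          by_contra hnm
          have : n = n' + 1 := by omega
          subst this
          omega
        have h6 := (hall n').2.2 t (by omega) h3 m (by simp; omega)
        rw [hω (n' + 1) t h3 m] at h6
        rw [h6, pre_getD U (by omega)]
  have hfol : ∀ n, Fol ω (pre U (n + 1)) (Q n).2 := by
    intro n t ht m hm
    rw [pre_length] at hm
    rw [pre_getD U hm]
    refine hseg n (max n (t + 1)) t (le_max_left _ _) ht ?_ m hm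
    have h2 := hmono (le_max_right n (t + 1))
    have h3 := hle (t + 1)
    omega
  set x := pl r σ (mk S ω) with hx
  have hxc : Con r σ x := con_pl _ _ _
  have ho1 : ∀ m, Tb S x (1 - r) m (U m) := by
    intro m
    unfold Tb
    rw [hx, strm_pl hr]
    refine op_mk S ω m _ (Q m).2 fun t ht => ?_
    have := hfol m t ht m (by simp)
    rwa [pre_getD U (by omega)] at this
  have ho2 : ∀ j, j % 2 = r → Le S (S.c (j + 1) (w j)) (strm r x) := by
    intro j hj
    obtain ⟨i, g, hi⟩ := hinv (j + 1) j hj (by simp)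
    have h1 := hi ω (hω (j + 1)) (hfol (j + 1))
    rw [pre_getD U (by omega)] at h1
    exact h1.le
  have hwin := hσ x hxc
  have h0 : Tb S x (1 - r) 0 (sd (1 - r)) := ho1 0
  rw [win_iff_outW hr (side_of_win hr hwin h0) h0] at hwin
  have hS : ∀ n, Agr (Tb S x 0) (Tb S x 1) n := fun n =>
    agree_of_outW hr hwin (n := n + 1) (w := w) (fun j _ => ho1 (j + 1))
      (fun j _ hj => ho2 j hj) n (by omega)
  have hplay : dec (Tb S x 0) = w := by
    funext j
    exact dec_eq (show 1 - r < 2 by omega) (hS j) (ho1 (j + 1))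
  rw [outW_iff hr] at hwin
  rcases hwin with ⟨_, h1⟩ | ⟨m, hm, _⟩
  · rwa [hplay] at h1
  · exact absurd (hS m) hm.1

end Pool.Agent.Helper56BP
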