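import Mathlib
import Pool.Agent.Helper56_BP.Bwd
import Pool.Agent.Helper56_TD.Codes

/-!
The coding is Borel and invariant; Turing reductions are among the functionals.
-/

set_option autoImplicit false

namespace Pool.Agent.Helper56BP

/-! ### Invariance -/

theorem BB_invariant {S : Sys} {A : Set (ℕ → Bool)} {x y : ℕ → Bool}
    (h : (EqvS S (movesI x) (movesI y) ∧ EqvS S (movesII x) (movesII y)) ∨
      (EqvS S (movesI x) (movesII y) ∧ EqvS S (movesII x) (movesI y)))
    (hx : x ∈ BB S A) : y ∈ BB S A := by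
  change Res A (Op S (movesI y)) (Op S (movesII y))
  have hx' : Res A (Op S (movesI x)) (Op S (movesII x)) := hx
  rcases h with ⟨h1, h2⟩ | ⟨h1, h2⟩
  · rwa [op_eq h1, op_eq h2] at hx'
  · rw [op_eq h1, op_eq h2] at hx'
    exact hx'.symm

/-! ### Borel sets -/

/-- the Borel set of plays won by player I for a reason independent of `A` -/
def RR (S : Sys) : Set (ℕ → Bool) :=
  {x | (Op S (movesI x) 0 false ∧ Op S (movesII x) 0 true ∧
      ∃ n, Fst (Op S (movesI x)) (Op S (movesII x)) n ∧
        Bl (Op S (movesI x)) (Op S (movesII x)) n) ∨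
    (Op S (movesII x) 0 false ∧ Op S (movesI x) 0 true ∧
      ∃ n, Fst (Op S (movesII x)) (Op S (movesI x)) n ∧
        Bl (Op S (movesII x)) (Op S (movesI x)) n) ∨
    ((Op S (movesI x) 0 false ∨ Op S (movesII x) 0 false) ∧
      ¬ Op S (movesI x) 0 true ∧ ¬ Op S (movesII x) 0 true)}

/-- the Borel set of plays that code a play of `A` -/
def SS (S : Sys) : Set (ℕ → Bool) :=
  {x | ((Op S (movesI x) 0 false ∧ Op S (movesII x) 0 true) ∨
      (Op S (movesII x) 0 false ∧ Op S (movesI x) 0 true)) ∧
    ∀ n, Agr (Op S (movesI x)) (Op S (movesII x)) n}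

/-- the coded play -/
noncomputable def DD (S : Sys) (x : ℕ → Bool) : ℕ → Bool := dec (Op S (movesI x))

theorem agr_symm {O P : ℕ → Bool → Prop} {n : ℕ} (h : Agr O P n) : Agr P O n := by
  obtain ⟨v, h1, h2⟩ := h
  exact ⟨v, h2, h1⟩

theorem dec_eq_of_agr {S : Sys} {a b : ℕ → Bool} (h : ∀ n, Agr (Op S a) (Op S b) n) :
    dec (Op S a) = dec (Op S b) := by
  classical
  funext n
  obtain ⟨v, h1, h2⟩ := h n
  unfold dec
  have : Op S a (n + 1) true ↔ Op S b (n + 1) true := by
    constructor
    · intro h3
      have := Op.unique h1 h3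
      subst this
      exact h2
    · intro h3
      have := Op.unique h2 h3
      subst this
      exact h1
  simp only [this]

theorem BB_eq (S : Sys) (A : Set (ℕ → Bool)) : BB S A = RR S ∪ (SS S ∩ DD S ⁻¹' A) := by
  ext x
  constructor
  · rintro (⟨h1, h2, h3 | h3⟩ | ⟨h1, h2, h3 | h3⟩ | h)
    · exact Or.inl (Or.inl ⟨h1, h2, h3⟩)
    · exact Or.inr ⟨⟨Or.inl ⟨h1, h2⟩, h3.1⟩, h3.2⟩
    · exact Or.inl (Or.inr (Or.inl ⟨h1, h2, h3⟩))
    · have h4 : ∀ n, Agr (Op S (movesI x)) (Op S (movesII x)) n := fun n => agr_symm (h3.1 n)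
      refine Or.inr ⟨⟨Or.inr ⟨h1, h2⟩, h4⟩, ?_⟩
      change dec (Op S (movesI x)) ∈ A
      rw [dec_eq_of_agr h4]
      exact h3.2
    · exact Or.inl (Or.inr (Or.inr h))
  · rintro ((⟨h1, h2, h3⟩ | ⟨h1, h2, h3⟩ | h) | ⟨⟨⟨h1, h2⟩ | ⟨h1, h2⟩, h3⟩, h4⟩)
    · exact Or.inl ⟨h1, h2, Or.inl h3⟩
    · exact Or.inr (Or.inl ⟨h1, h2, Or.inl h3⟩)
    · exact Or.inr (Or.inr h)
    · exact Or.inl ⟨h1, h2, Or.inr ⟨h3, h4⟩⟩
    · refine Or.inr (Or.inl ⟨h1, h2, Or.inr ⟨fun n => agr_symm (h3 n), ?_⟩⟩)
      rw [← dec_eq_of_agr h3]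
      exact h4

theorem measurable_H (S : Sys) : Measurable (H S) := by
  refine Measurable.exists fun j => ?_
  refine measurableSet_setOfPred.1 ?_
  have h : {a | ∃ ω, S.F j (mk S ω) = a} = Set.range fun ω => S.F j (mk S ω) := rfl
  rw [h]
  exact (isCompact_range (continuous_F_mk S j)).measurableSet

theorem measurable_Le (S : Sys) (d : ℕ → Bool) : Measurable fun a => Le S d a := by
  unfold Le
  refine Measurable.exists fun i => measurableSet_setOfPred.1 ?_
  exact (S.meas i) (measurableSet_singleton d)

theorem measurable_op (S : Sys) {g : (ℕ → Bool) → (ℕ → Bool)} (hg : Continuous g) (n : ℕ)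
    (v : Bool) : Measurable fun x => Op S (g x) n v := by
  have h : Measurable fun a => Op S a n v := by
    unfold Op
    exact (measurable_H S).and ((measurable_Le S _).and (measurable_Le S _).not)
  exact h.comp hg.measurable

theorem continuous_movesI : Continuous movesI :=
  continuous_pi fun k => continuous_apply (2 * k)

theorem continuous_movesII : Continuous movesII :=
  continuous_pi fun k => continuous_apply (2 * k + 1)

theorem measurable_agr (S : Sys) {g g' : (ℕ → Bool) → (ℕ → Bool)} (hg : Continuous g)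
    (hg' : Continuous g') (n : ℕ) : Measurable fun x => Agr (Op S (g x)) (Op S (g' x)) n := by
  unfold Agr
  exact Measurable.exists fun v => (measurable_op S hg _ v).and (measurable_op S hg' _ v)

theorem measurable_fst (S : Sys) {g g' : (ℕ → Bool) → (ℕ → Bool)} (hg : Continuous g)
    (hg' : Continuous g') (n : ℕ) : Measurable fun x => Fst (Op S (g x)) (Op S (g' x)) n := by
  unfold Fst
  exact (measurable_agr S hg hg' n).not.and
    (Measurable.forall fun j => Measurable.forall fun _ => measurable_agr S hg hg' j)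

theorem measurable_bl (S : Sys) {g g' : (ℕ → Bool) → (ℕ → Bool)} (hg : Continuous g)
    (hg' : Continuous g') (n : ℕ) : Measurable fun x => Bl (Op S (g x)) (Op S (g' x)) n := by
  unfold Bl
  exact (measurable_const.and (Measurable.exists fun v => measurable_op S hg _ v)).or
    (measurable_const.and (Measurable.exists fun v => measurable_op S hg' _ v).not)

theorem measurable_RR (S : Sys) : MeasurableSet (RR S) := by
  have hI := continuous_movesI
  have hII := continuous_movesII
  refine measurableSet_setOfPred.2 ?_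
  exact ((measurable_op S hI 0 false).and ((measurable_op S hII 0 true).and
      (Measurable.exists fun n => (measurable_fst S hI hII n).and (measurable_bl S hI hII n)))).or
    (((measurable_op S hII 0 false).and ((measurable_op S hI 0 true).and
      (Measurable.exists fun n => (measurable_fst S hII hI n).and
        (measurable_bl S hII hI n)))).or
    (((measurable_op S hI 0 false).or (measurable_op S hII 0 false)).and
      ((measurable_op S hI 0 true).not.and (measurable_op S hII 0 true).not)))

theorem measurable_SS (S : Sys) : MeasurableSet (SS S) := by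
  have hI := continuous_movesI
  have hII := continuous_movesII
  refine measurableSet_setOfPred.2 ?_
  exact (((measurable_op S hI 0 false).and (measurable_op S hII 0 true)).or
    ((measurable_op S hII 0 false).and (measurable_op S hI 0 true))).and
    (Measurable.forall fun n => measurable_agr S hI hII n)

theorem measurable_DD (S : Sys) : Measurable (DD S) := by
  classical
  refine measurable_pi_lambda _ fun n => ?_
  refine measurable_to_bool ?_
  have : (fun x => DD S x n) ⁻¹' {true} = {x | Op S (movesI x) (n + 1) true} := by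
    ext x
    simp [DD, dec]
  rw [this]
  exact measurableSet_setOfPred.2 (measurable_op S continuous_movesI _ _)

/-! ### Turing reductions -/

theorem chi_eq (x : ℕ → Bool) : chi x = Helper56TD.chi x := rfl

theorem chi_inj {x y : ℕ → Bool} (h : chi x = chi y) : x = y := by
  funext n
  have h1 := congrFun h n
  unfold chi at h1
  have h2 := Part.some_inj.1 h1
  revert h2
  cases x n <;> cases y n <;> simp

/-- the domain of the Turing functional with code `e` -/
def XT (e : Helper56TD.OCode) : Set (ℕ → Bool) := {b | ∃ a, Helper56TD.eval (chi b) e = chi a}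

open Classical in
/-- the Turing functional with code `e` -/
noncomputable def FT (e : Helper56TD.OCode) (b : ℕ → Bool) : ℕ → Bool :=
  if h : ∃ a, Helper56TD.eval (chi b) e = chi a then h.choose else b

theorem FT_spec {e : Helper56TD.OCode} {b : ℕ → Bool} (hb : b ∈ XT e) :
    Helper56TD.eval (chi b) e = chi (FT e b) := by
  have hb' : ∃ a, Helper56TD.eval (chi b) e = chi a := hb
  unfold FT
  rw [dif_pos hb']
  exact hb'.choose_spec

theorem measurable_eval (e : Helper56TD.OCode) (k v : ℕ) :
    MeasurableSet {b : ℕ → Bool | v ∈ Helper56TD.eval (chi b) e k} := by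
  refine (isOpen_of_cylinder fun b hb => ?_).measurableSet
  obtain ⟨N, hN⟩ := Helper56TD.use_principle b e k v hb
  exact ⟨N, fun b' hb' => hN b' hb'⟩

theorem XT_eq (e : Helper56TD.OCode) : XT e = ⋂ k, ({b : ℕ → Bool | 0 ∈ Helper56TD.eval (chi b) e k} ∪
    {b : ℕ → Bool | 1 ∈ Helper56TD.eval (chi b) e k}) := by
  classical
  ext b
  constructor
  · rintro ⟨a, ha⟩
    refine Set.mem_iInter.2 fun k => ?_
    have h1 : (a k).toNat ∈ Helper56TD.eval (chi b) e k := by
      rw [ha]
      exact Part.mem_some _
    cases hk : a k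
    · rw [hk] at h1
      exact Or.inl h1
    · rw [hk] at h1
      exact Or.inr h1
  · intro h
    refine ⟨fun k => decide (1 ∈ Helper56TD.eval (chi b) e k), ?_⟩
    funext k
    by_cases h1 : 1 ∈ Helper56TD.eval (chi b) e k
    · rw [Part.eq_some_iff.2 h1]
      change Part.some 1 = Part.some (decide (1 ∈ Helper56TD.eval (chi b) e k)).toNat
      rw [decide_eq_true h1]
      rfl
    · have h0 : 0 ∈ Helper56TD.eval (chi b) e k := by
        rcases Set.mem_iInter.1 h k with h2 | h2
        · exact h2
        · exact absurd h2 h1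
      rw [Part.eq_some_iff.2 h0]
      change Part.some 0 = Part.some (decide (1 ∈ Helper56TD.eval (chi b) e k)).toNat
      rw [decide_eq_false h1]
      rfl

theorem measurableSet_XT (e : Helper56TD.OCode) : MeasurableSet (XT e) := by
  rw [XT_eq]
  exact MeasurableSet.iInter fun k => (measurable_eval e k 0).union (measurable_eval e k 1)

theorem measurable_FT (e : Helper56TD.OCode) : Measurable (FT e) := by
  refine measurable_pi_lambda _ fun k => ?_
  refine measurable_to_bool ?_
  have : (fun b => FT e b k) ⁻¹' {true} =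
      (XT e ∩ {b : ℕ → Bool | 1 ∈ Helper56TD.eval (chi b) e k}) ∪
        ((XT e)ᶜ ∩ {b : ℕ → Bool | b k = true}) := by
    ext b
    by_cases hb : b ∈ XT e
    · have h1 := FT_spec hb
      have h2 : Helper56TD.eval (chi b) e k = Part.some (FT e b k).toNat := by rw [h1]; rfl
      simp only [Set.mem_preimage, Set.mem_singleton_iff, Set.mem_union, Set.mem_inter_iff,
        Set.mem_compl_iff, hb, true_and, not_true_eq_false, false_and, or_false]
      change FT e b k = true ↔ 1 ∈ Helper56TD.eval (chi b) e k
      rw [h2, Part.mem_some_iff]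
      cases FT e b k <;> simp
    · have h1 : FT e b = b := by
        unfold FT
        exact dif_neg hb
      simp only [Set.mem_preimage, Set.mem_singleton_iff, Set.mem_union, Set.mem_inter_iff,
        Set.mem_compl_iff, hb, false_and, not_false_eq_true, true_and, false_or, h1]
      rfl
  rw [this]
  refine ((measurableSet_XT e).inter (measurable_eval e k 1)).union
    ((measurableSet_XT e).compl.inter ?_)
  have h := (measurable_pi_apply (X := fun _ : ℕ => Bool) k) (measurableSet_singleton true)
  convert h using 1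
  ext b
  simp

theorem exists_FT {a b : ℕ → Bool} (h : TuringReducible (chi a) (chi b)) :
    ∃ e, b ∈ XT e ∧ FT e b = a := by
  unfold TuringReducible at h
  rw [RecursiveIn.iff_nat] at h
  obtain ⟨e, he⟩ := Helper56TD.exists_code h
  have hb : b ∈ XT e := ⟨a, he⟩
  refine ⟨e, hb, chi_inj ?_⟩
  rw [← FT_spec hb, he]

theorem main (F : ℕ → (ℕ → Bool) → (ℕ → Bool)) (hF : ∀ i, Measurable (F i)) :
    ∃ (R S : Set (ℕ → Bool)) (D : (ℕ → Bool) → (ℕ → Bool)),
      MeasurableSet R ∧ MeasurableSet S ∧ Measurable D ∧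
      ∀ A : Set (ℕ → Bool),
        PairInvariant F (R ∪ (S ∩ D ⁻¹' A)) ∧
        (WinsI A ↔ WinsI (R ∪ (S ∩ D ⁻¹' A))) ∧
        (WinsII A ↔ WinsII (R ∪ (S ∩ D ⁻¹' A))) := by
  let K : ℕ ⊕ Helper56TD.OCode → (ℕ → Bool) → (ℕ → Bool) := Sum.elim F FT
  obtain ⟨S', hS'⟩ := exists_fam K (by
    rintro (i | e)
    · exact hF i
    · exact measurable_FT e)
  obtain ⟨S, rfl⟩ := exists_sys S'
  have hred : ∀ {a b : ℕ → Bool}, Red F a b → Le S a b := by
    rintro a b (h | ⟨i, hi⟩)
    · obtain ⟨e, he, hea⟩ := exists_FT h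
      obtain ⟨l, hl⟩ := hS' (Sum.inr e)
      exact ⟨l, by rw [hl]; exact hea⟩
    · obtain ⟨l, hl⟩ := hS' (Sum.inl i)
      exact ⟨l, by rw [hl]; exact hi⟩
  refine ⟨RR S, SS S, DD S, measurable_RR S, measurable_SS S, measurable_DD S, fun A => ?_⟩
  rw [← BB_eq S A]
  refine ⟨fun x y h hx => BB_invariant ?_ hx, ?_, ?_⟩
  · have he : ∀ {a b : ℕ → Bool}, Eqv F a b → EqvS S a b := fun h => ⟨hred h.1, hred h.2⟩
    rcases h with ⟨h1, h2⟩ | ⟨h1, h2⟩
    · exact Or.inl ⟨he h1, he h2⟩
    · exact Or.inr ⟨he h1, he h2⟩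
  · rw [winsI_iff, winsI_iff]
    exact ⟨winsP_BB (by norm_num), winsP_of_BB (by norm_num)⟩
  · rw [winsII_iff, winsII_iff]
    exact ⟨winsP_BB (by norm_num), winsP_of_BB (by norm_num)⟩

end Pool.Agent.Helper56BP
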