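import Mathlib
import Pool.Agent.Helper56_BP.Defs
import Pool.Agent.Helper56_BP.Main

/-!
`AD` is the determinacy of all sets of pairs of Turing degrees.

Every game `G(A)` on Cantor space is equivalent, for both players, to a game `G(B)` whose payoff
set `B` depends only on the unordered pair of the Turing degrees of the real produced by player I
and the real produced by player II.  (Turing determinacy is about the sets that depend only on the
Turing degree of the join of these two reals.)  Turing equivalence may be replaced by any countable
Borel equivalence relation: `F` is an arbitrary sequence of Borel maps, and `B` is also invariant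
under the reducibilities given by the `F i`.  The set `B` is obtained from `A` by a fixed Borel
recipe, `B = R ∪ (S ∩ D ⁻¹' A)`, so no choice is involved in passing from `A` to `B`.
-/

set_option autoImplicit false

open Pool.Agent.Helper56BP

/-- Every game is equivalent to a game whose payoff set depends only on the unordered pair of the
degrees of the two reals produced by the players. -/
theorem Pool.Agent.Results.MP_917879_lc.PairDegrees.result :
    ∀ F : ℕ → (ℕ → Bool) → (ℕ → Bool), (∀ i, Measurable (F i)) →
    ∃ (R S : Set (ℕ → Bool)) (D : (ℕ → Bool) → (ℕ → Bool)),
      MeasurableSet R ∧ MeasurableSet S ∧ Measurable D ∧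
      ∀ A : Set (ℕ → Bool),
        PairInvariant F (R ∪ (S ∩ D ⁻¹' A)) ∧
        (WinsI A ↔ WinsI (R ∪ (S ∩ D ⁻¹' A))) ∧
        (WinsII A ↔ WinsII (R ∪ (S ∩ D ⁻¹' A))) :=
  fun F hF => main F hF
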